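import Pool.Agent.Work.MP_9d0e17_int2.Base

set_option autoImplicit false

open Complex ComplexConjugate

namespace Pool.Agent.Paley62

open Pool.Agent.Paley67

variable {p : ℕ} [hp : Fact p.Prime]

/-- lower bound for an integer vector given on a set -/
theorem int_lower (hC : Core p) (hp100 : 100 ≤ p) (S : Finset (ZMod p)) (e : ZMod p → ℤ)
    (hS : 3 * S.card ≤ p) (hN : 10 * ∑ a ∈ S, (e a).natAbs ≤ 9 * p) :
    1 / 16 * min (((∑ a ∈ S, e a ^ 2 : ℤ) : ℝ)) (p / S.card) ≤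
      ((∑ a ∈ S, e a ^ 2 : ℤ) : ℝ) - |(qS S e : ℝ)| / Real.sqrt p := by
  classical
  let F : ZMod p → ℤ := fun a => if a ∈ S then e a else 0
  have hFS : sup F ⊆ S := by
    intro a ha
    by_contra hcon
    exact (Finset.mem_filter.1 ha).2 (if_neg hcon)
  have hF0 : ∀ a ∈ S, a ∉ sup F → e a = 0 := by
    intro a ha h
    by_contra hcon
    apply h
    refine Finset.mem_filter.2 ⟨Finset.mem_univ _, ?_⟩
    show (if a ∈ S then e a else 0) ≠ 0
    rwa [if_pos ha]
  have hFe : ∀ a ∈ S, F a = e a := fun a ha => if_pos ha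
  have h1 : l1 F = ∑ a ∈ S, (e a).natAbs := by
    unfold l1
    rw [← Finset.sum_subset (Finset.subset_univ S) (f := fun a => (F a).natAbs)]
    · exact Finset.sum_congr rfl fun a ha => by rw [hFe a ha]
    · intro a _ ha
      have : F a = 0 := if_neg ha
      rw [this]; rfl
  have h2 : l2 F = ∑ a ∈ S, e a ^ 2 := by
    unfold l2
    rw [← Finset.sum_subset (Finset.subset_univ S) (f := fun a => F a ^ 2)]
    · exact Finset.sum_congr rfl fun a ha => by rw [hFe a ha]
    · intro a _ ha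
      have : F a = 0 := if_neg ha
      rw [this]; norm_num
  have h3 : qS (sup F) F = qS S e := by
    unfold qS
    rw [Finset.sum_subset hFS (f := fun b => ∑ a ∈ sup F, F b * F a * chi p (b - a))]
    · refine Finset.sum_congr rfl fun b hb => ?_
      rw [Finset.sum_subset hFS]
      · exact Finset.sum_congr rfl fun a ha => by rw [hFe a ha, hFe b hb]
      · intro a ha ha'
        rw [hFe a ha, hF0 a ha ha']; ring
    · intro b hb hb'
      apply Finset.sum_eq_zero
      intro a _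
      rw [hFe b hb, hF0 b hb hb']; ring
  have hc : (sup F).card ≤ S.card := Finset.card_le_card hFS
  have h4 := int_lower' hC hp100 F (by omega) (by rw [h1]; exact hN)
  rw [h3, h2] at h4
  refine le_trans ?_ h4
  apply mul_le_mul_of_nonneg_left _ (by norm_num)
  rcases Nat.eq_zero_or_pos (sup F).card with h0 | h0
  · have h5 : ((∑ a ∈ S, e a ^ 2 : ℤ) : ℝ) = 0 := by
      rw [← h2, ← l2_sup, Finset.card_eq_zero.1 h0]
      simp
    rw [h5, h0]
    refine le_min (min_le_left _ _) ?_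
    simp only [Nat.cast_zero, div_zero]
    exact min_le_left _ _
  · have h6 : (0 : ℝ) < ((sup F).card : ℝ) := by exact_mod_cast h0
    have h7 : ((sup F).card : ℝ) ≤ (S.card : ℝ) := by exact_mod_cast hc
    exact min_le_min le_rfl (div_le_div_of_nonneg_left (Nat.cast_nonneg _) h6 h7)

theorem moebiusI (hp4 : p % 4 = 1) (S : Finset (ZMod p)) (hS : S.card < p) (e : ZMod p → ℤ)
    (τ : ℤ) :
    ∃ (S' : Finset (ZMod p)) (e' : ZMod p → ℤ), S'.card = S.card + 1 ∧
      ∑ a ∈ S', (e' a).natAbs = ∑ a ∈ S, (e a).natAbs + τ.natAbs ∧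
      ∑ a ∈ S', e' a ^ 2 = ∑ a ∈ S, e a ^ 2 + τ ^ 2 ∧
      qS S' e' = qS S e + 2 * τ * ∑ a ∈ S, e a := by
  classical
  obtain ⟨c, hc⟩ : ∃ c, c ∉ S := by
    by_contra h
    push Not at h
    have h1 : S = Finset.univ := Finset.eq_univ_iff_forall.2 h
    rw [h1, Finset.card_univ, ZMod.card] at hS
    exact lt_irrefl _ hS
  have hne : ∀ a ∈ S, a - c ≠ 0 := fun a ha h => hc (by rwa [← sub_eq_zero.1 h])
  let f : ZMod p → ZMod p := fun a => (a - c)⁻¹
  have hf0 : ∀ a ∈ S, f a ≠ 0 := fun a ha => inv_ne_zero (hne a ha)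
  have hfinj : Set.InjOn f S := by
    intro a _ b _ hab
    have h1 : a - c = b - c := inv_injective hab
    exact sub_left_injective h1
  let e' : ZMod p → ℤ := fun y => if y = 0 then τ else chi p y * e (y⁻¹ + c)
  have he'0 : e' 0 = τ := if_pos rfl
  have he'f : ∀ a ∈ S, e' (f a) = chi p (f a) * e a := by
    intro a ha
    show (if f a = 0 then τ else chi p (f a) * e ((f a)⁻¹ + c)) = _
    rw [if_neg (hf0 a ha)]
    have : (f a)⁻¹ + c = a := by
      show ((a - c)⁻¹)⁻¹ + c = a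
      rw [inv_inv]; ring
    rw [this]
  have hχ : ∀ a ∈ S, chi p (f a) = 1 ∨ chi p (f a) = -1 :=
    fun a ha => quadraticChar_dichotomy (hf0 a ha)
  have h0 : (0 : ZMod p) ∉ S.image f := by
    intro h
    obtain ⟨a, ha, h1⟩ := Finset.mem_image.1 h
    exact hf0 a ha h1
  refine ⟨insert 0 (S.image f), e', ?_, ?_, ?_, ?_⟩
  · rw [Finset.card_insert_of_notMem h0, Finset.card_image_of_injOn hfinj]
  · rw [Finset.sum_insert h0, he'0, Finset.sum_image hfinj, add_comm]
    congr 1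
    refine Finset.sum_congr rfl fun a ha => ?_
    rw [he'f a ha, Int.natAbs_mul]
    rcases hχ a ha with h | h <;> rw [h] <;> simp
  · rw [Finset.sum_insert h0, he'0, Finset.sum_image hfinj, add_comm]
    congr 1
    refine Finset.sum_congr rfl fun a ha => ?_
    rw [he'f a ha, mul_pow]
    rcases hχ a ha with h | h <;> rw [h] <;> simp
  · have g00 : e' 0 * e' 0 * chi p (0 - 0) = 0 := by
      have : chi p (0 - 0) = 0 := by rw [sub_zero]; exact quadraticChar_zero
      rw [this, mul_zero]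
    have g0f : ∀ a ∈ S, e' 0 * e' (f a) * chi p (0 - f a) = τ * e a := by
      intro a ha
      rw [he'0, he'f a ha, zero_sub, chi_neg hp4]
      have := chi_sq (hf0 a ha)
      linear_combination (τ * e a) * this
    have gf0 : ∀ a ∈ S, e' (f a) * e' 0 * chi p (f a - 0) = τ * e a := by
      intro a ha
      rw [he'0, he'f a ha, sub_zero]
      have := chi_sq (hf0 a ha)
      linear_combination (τ * e a) * this
    have gff : ∀ b ∈ S, ∀ a ∈ S, e' (f b) * e' (f a) * chi p (f b - f a) =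
        e b * e a * chi p (b - a) := by
      intro b hb a ha
      have h1 : f b - f a = (a - b) * f b * f a := by
        show (b - c)⁻¹ - (a - c)⁻¹ = (a - b) * (b - c)⁻¹ * (a - c)⁻¹
        have h2 := hne a ha
        have h3 := hne b hb
        field_simp
        ring
      rw [he'f a ha, he'f b hb, h1, chi_mul, chi_mul, chi_sub_comm hp4 a b]
      have h4 := chi_sq (hf0 a ha)
      have h5 := chi_sq (hf0 b hb)
      linear_combination (e b * e a * chi p (b - a)) * (chi p (f b) * chi p (f b)) * h4 +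
        (e b * e a * chi p (b - a)) * h5
    unfold qS
    rw [Finset.sum_insert h0, Finset.sum_insert h0, g00, zero_add, Finset.sum_image hfinj,
      Finset.sum_image hfinj, Finset.sum_congr rfl g0f]
    have h6 : ∀ b ∈ S, ∑ a ∈ insert 0 (S.image f), e' (f b) * e' a * chi p (f b - a) =
        τ * e b + ∑ a ∈ S, e b * e a * chi p (b - a) := by
      intro b hb
      rw [Finset.sum_insert h0, gf0 b hb, Finset.sum_image hfinj,
        Finset.sum_congr rfl fun a ha => gff b hb a ha]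
    rw [Finset.sum_congr rfl h6, Finset.sum_add_distrib, ← Finset.mul_sum]
    ring

theorem nrm_intI (hp4 : p % 4 = 1) : ∃ σ : ℤ, (σ = 1 ∨ σ = -1) ∧
    ∀ (S : Finset (ZMod p)) (τ : ℤ) (e : ZMod p → ℤ),
    nrm S (τ : ℂ) (fun a => (e a : ℂ)) = (τ : ℝ) ^ 2 + ((∑ a ∈ S, e a ^ 2 : ℤ) : ℝ) +
      (2 * τ * ((∑ a ∈ S, e a : ℤ) : ℝ) + σ * (qS S e : ℝ)) / Real.sqrt p := by
  obtain ⟨σ, hσ, hG⟩ := Gs_real (p := p) hp4
  refine ⟨σ, hσ, ?_⟩
  intro S τ e
  have hp2 : p ≠ 2 := by omega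
  have hp0 : (p : ℂ) ≠ 0 := by exact_mod_cast hp.out.ne_zero
  have hs : (Real.sqrt p : ℂ) ≠ 0 := by
    rw [Ne, Complex.ofReal_eq_zero, Real.sqrt_eq_zero (Nat.cast_nonneg _)]
    exact_mod_cast hp.out.ne_zero
  have hs2 : (Real.sqrt p : ℂ) ^ 2 = p := by
    rw [← Complex.ofReal_pow, Real.sq_sqrt (Nat.cast_nonneg _)]; simp
  have h1 := nrm_eq hp2 S (τ : ℂ) (fun a => (e a : ℂ))
  have h2 : hat S (fun a => (e a : ℂ)) 0 = ((∑ a ∈ S, e a : ℤ) : ℂ) := by
    unfold hat
    push_cast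
    refine Finset.sum_congr rfl fun a _ => ?_
    rw [zero_mul, AddChar.map_zero_eq_one, one_mul]
  have h3 : qC S (fun a => (e a : ℂ)) = (qS S e : ℂ) := by
    unfold qC qS
    push_cast
    refine Finset.sum_congr rfl fun a _ => Finset.sum_congr rfl fun b _ => ?_
    rw [cInt]
    ring
  have hsq : ∀ n : ℤ, ((‖(n : ℂ)‖ : ℝ) : ℂ) ^ 2 = (n : ℂ) ^ 2 := by
    intro n
    rw [← Complex.mul_conj', cInt, sq]
  have h4 : ∑ a ∈ S, ((‖((e a : ℤ) : ℂ)‖ : ℝ) : ℂ) ^ 2 = ((∑ a ∈ S, e a ^ 2 : ℤ) : ℂ) := by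
    push_cast
    exact Finset.sum_congr rfl fun a _ => hsq _
  rw [h2, h3, h4, hsq, hG, cInt, cInt] at h1
  apply Complex.ofReal_injective
  rw [h1]
  push_cast
  rw [← hs2]
  field_simp
  ring

theorem int_frame (hC : Core p) (hp4 : p % 4 = 1) (hp100 : 100 ≤ p) (S : Finset (ZMod p))
    (e : ZMod p → ℤ) (τ : ℤ) (m : ℕ)
    (hτ : (τ = 0 ∧ m = S.card) ∨ m = S.card + 1) (hm : 3 * m ≤ p)
    (hN : 10 * (∑ a ∈ S, (e a).natAbs + τ.natAbs) ≤ 9 * p) :
    1 / 16 * min (((∑ a ∈ S, e a ^ 2 + τ ^ 2 : ℤ) : ℝ)) (p / m) ≤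
      nrm S (τ : ℂ) (fun a => (e a : ℂ)) := by
  obtain ⟨σ, hσ, hn⟩ := nrm_intI (p := p) hp4
  rw [hn S τ e]
  have hr0 : 0 < Real.sqrt (p : ℝ) := Real.sqrt_pos.2 (by exact_mod_cast hp.out.pos)
  rcases hτ with ⟨h0, rfl⟩ | rfl
  · have h2 := int_lower hC hp100 S e hm (by rw [h0] at hN; simpa using hN)
    rw [h0]
    have h3 : -(|(qS S e : ℝ)| / Real.sqrt p) ≤ (σ * (qS S e : ℝ)) / Real.sqrt p := by
      rw [← neg_div]
      apply div_le_div_of_nonneg_right _ hr0.le
      have h4 := neg_abs_le (qS S e : ℝ)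
      have h5 := le_abs_self (qS S e : ℝ)
      rcases hσ with h | h <;> rw [h] <;> push_cast <;> linarith
    have h6 : (2 * ((0 : ℤ) : ℝ) * ((∑ a ∈ S, e a : ℤ) : ℝ) + (σ : ℝ) * (qS S e : ℝ)) /
        Real.sqrt p = (σ * (qS S e : ℝ)) / Real.sqrt p := by
      push_cast; ring
    have h7 : (∑ a ∈ S, e a ^ 2 + (0 : ℤ) ^ 2 : ℤ) = ∑ a ∈ S, e a ^ 2 := by ring
    rw [h6, h7]
    refine h2.trans ?_
    push_cast
    linarith
  · have hσσ : σ * σ = 1 := by rcases hσ with h | h <;> rw [h] <;> norm_num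
    obtain ⟨S', e', hc, hl1, hl2, hq⟩ := moebiusI hp4 S (by omega) e (σ * τ)
    have hστ : (σ * τ).natAbs = τ.natAbs := by
      rw [Int.natAbs_mul]
      rcases hσ with h | h <;> rw [h] <;> simp
    have hστ2 : (σ * τ) ^ 2 = τ ^ 2 := by
      rw [mul_pow, sq σ, hσσ, one_mul]
    have h2 := int_lower hC hp100 S' e' (by rw [hc]; exact hm) (by rw [hl1, hστ]; exact hN)
    rw [hc, hl2, hστ2] at h2
    refine h2.trans ?_
    have h3 : -(|(qS S' e' : ℝ)| / Real.sqrt p) ≤ (σ * (qS S' e' : ℝ)) / Real.sqrt p := by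
      rw [← neg_div]
      apply div_le_div_of_nonneg_right _ hr0.le
      have h4 := neg_abs_le (qS S' e' : ℝ)
      have h5 := le_abs_self (qS S' e' : ℝ)
      rcases hσ with h | h <;> rw [h] <;> push_cast <;> linarith
    have h7 : (σ : ℝ) * (qS S' e' : ℝ) = 2 * τ * ((∑ a ∈ S, e a : ℤ) : ℝ) + σ * (qS S e : ℝ) := by
      have : σ * qS S' e' = 2 * τ * (∑ a ∈ S, e a) + σ * qS S e := by
        rw [hq]; linear_combination (2 * τ * ∑ a ∈ S, e a) * hσσ
      exact_mod_cast this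
    rw [← h7]
    push_cast
    linarith

end Pool.Agent.Paley62
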