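import Pool.Agent.Work.MP_9d0e17_int2.Red

set_option autoImplicit false

open Complex ComplexConjugate

namespace Pool.Agent.Paley62

open Pool.Agent.Paley67

variable {p : ℕ} [hp : Fact p.Prime]

theorem red0 (hp4 : p % 4 = 1) (S : Finset (ZMod p)) (x : ZMod p → ℝ) :
    |nrm S ((0 : ℝ) : ℂ) (fun a => (x a : ℂ)) - ∑ a ∈ S, x a ^ 2| =
      |qR S x| / Real.sqrt p := by
  obtain ⟨σ, hσ, h⟩ := nrm_real (p := p) hp4
  have hr0 : 0 < Real.sqrt (p : ℝ) := Real.sqrt_pos.2 (by exact_mod_cast hp.out.pos)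
  rw [h]
  have h1 : (0 : ℝ) ^ 2 + ∑ a ∈ S, x a ^ 2 + (2 * 0 * (∑ a ∈ S, x a) + σ * qR S x) / Real.sqrt p -
      ∑ a ∈ S, x a ^ 2 = σ * (qR S x / Real.sqrt p) := by ring
  rw [h1, abs_mul, abs_div, abs_of_pos hr0]
  have h2 : |(σ : ℝ)| = 1 := by rcases hσ with h | h <;> rw [h] <;> norm_num
  rw [h2, one_mul]

theorem red1 (hp4 : p % 4 = 1) (S : Finset (ZMod p)) (hS : S.card < p) (t : ℝ)
    (x : ZMod p → ℝ) :
    ∃ (S' : Finset (ZMod p)) (y : ZMod p → ℝ), S'.card = S.card + 1 ∧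
      (∀ g : ℝ → ℝ, (∀ u, g (-u) = g u) → ∑ a ∈ S', g (y a) = ∑ a ∈ S, g (x a) + g t) ∧
      (∀ a ∈ S', y a = t ∨ y a = -t ∨ ∃ b ∈ S, y a = x b ∨ y a = -x b) ∧
      |nrm S (t : ℂ) (fun a => (x a : ℂ)) - (∑ a ∈ S, x a ^ 2 + t ^ 2)| =
        |qR S' y| / Real.sqrt p := by
  classical
  obtain ⟨σ, hσ, hnrm⟩ := nrm_real (p := p) hp4
  have hr0 : 0 < Real.sqrt (p : ℝ) := Real.sqrt_pos.2 (by exact_mod_cast hp.out.pos)
  obtain ⟨c, hc⟩ : ∃ c, c ∉ S := by
    by_contra h
    push Not at h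
    have h1 : S = Finset.univ := Finset.eq_univ_iff_forall.2 h
    rw [h1, Finset.card_univ, ZMod.card] at hS
    exact lt_irrefl _ hS
  have hne : ∀ a ∈ S, a - c ≠ 0 := fun a ha h => hc (by rwa [← sub_eq_zero.1 h])
  let f : ZMod p → ZMod p := fun a => (a - c)⁻¹
  have hf0 : ∀ a ∈ S, f a ≠ 0 := fun a ha => inv_ne_zero (hne a ha)
  have hfinj : Set.InjOn f S := by
    intro a _ b _ hab
    have h1 : a - c = b - c := inv_injective hab
    exact sub_left_injective h1
  let y : ZMod p → ℝ := fun u => if u = 0 then (σ : ℝ) * t else ((chi p u : ℤ) : ℝ) * x (u⁻¹ + c)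
  have hy0 : y 0 = (σ : ℝ) * t := if_pos rfl
  have hyf : ∀ a ∈ S, y (f a) = ((chi p (f a) : ℤ) : ℝ) * x a := by
    intro a ha
    show (if f a = 0 then (σ : ℝ) * t else ((chi p (f a) : ℤ) : ℝ) * x ((f a)⁻¹ + c)) = _
    rw [if_neg (hf0 a ha)]
    have : (f a)⁻¹ + c = a := by
      show ((a - c)⁻¹)⁻¹ + c = a
      rw [inv_inv]; ring
    rw [this]
  have hχ : ∀ a ∈ S, chi p (f a) = 1 ∨ chi p (f a) = -1 :=
    fun a ha => quadraticChar_dichotomy (hf0 a ha)
  have h0 : (0 : ZMod p) ∉ S.image f := by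
    intro h
    obtain ⟨a, ha, h1⟩ := Finset.mem_image.1 h
    exact hf0 a ha h1
  have hσσ : (σ : ℝ) * σ = 1 := by rcases hσ with h | h <;> rw [h] <;> norm_num
  refine ⟨insert 0 (S.image f), y, ?_, ?_, ?_, ?_⟩
  · rw [Finset.card_insert_of_notMem h0, Finset.card_image_of_injOn hfinj]
  · intro g hg
    rw [Finset.sum_insert h0, hy0, Finset.sum_image hfinj, add_comm]
    congr 1
    · refine Finset.sum_congr rfl fun a ha => ?_
      rw [hyf a ha]
      rcases hχ a ha with h | h <;> rw [h] <;> simp [hg]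
    · rcases hσ with h | h <;> rw [h] <;> simp [hg]
  · intro a ha
    rcases Finset.mem_insert.1 ha with rfl | ha
    · rw [hy0]
      rcases hσ with h | h
      · left; rw [h]; simp
      · right; left; rw [h]; simp
    · obtain ⟨b, hb, rfl⟩ := Finset.mem_image.1 ha
      right; right
      refine ⟨b, hb, ?_⟩
      rw [hyf b hb]
      rcases hχ b hb with h | h
      · left; rw [h]; simp
      · right; rw [h]; simp
  · have hq : qR (insert 0 (S.image f)) y = qR S x + 2 * (σ * t) * ∑ a ∈ S, x a := by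
      have g00 : y 0 * y 0 * ((chi p (0 - 0) : ℤ) : ℝ) = 0 := by
        have : chi p (0 - 0) = 0 := by rw [sub_zero]; exact quadraticChar_zero
        rw [this]; simp
      have hsqc : ∀ a ∈ S, ((chi p (f a) : ℤ) : ℝ) * ((chi p (f a) : ℤ) : ℝ) = 1 := by
        intro a ha
        have := chi_sq (hf0 a ha)
        exact_mod_cast this
      have g0f : ∀ a ∈ S, y 0 * y (f a) * ((chi p (0 - f a) : ℤ) : ℝ) = (σ * t) * x a := by
        intro a ha
        rw [hy0, hyf a ha, zero_sub, chi_neg hp4]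
        linear_combination (σ * t * x a) * hsqc a ha
      have gf0 : ∀ a ∈ S, y (f a) * y 0 * ((chi p (f a - 0) : ℤ) : ℝ) = (σ * t) * x a := by
        intro a ha
        rw [hy0, hyf a ha, sub_zero]
        linear_combination (σ * t * x a) * hsqc a ha
      have gff : ∀ b ∈ S, ∀ a ∈ S, y (f b) * y (f a) * ((chi p (f b - f a) : ℤ) : ℝ) =
          x b * x a * ((chi p (b - a) : ℤ) : ℝ) := by
        intro b hb a ha
        have h1 : f b - f a = (a - b) * f b * f a := by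
          show (b - c)⁻¹ - (a - c)⁻¹ = (a - b) * (b - c)⁻¹ * (a - c)⁻¹
          have h2 := hne a ha
          have h3 := hne b hb
          field_simp
          ring
        rw [hyf a ha, hyf b hb, h1, chi_mul, chi_mul, chi_sub_comm hp4 a b]
        push_cast
        linear_combination (x b * x a * ((chi p (b - a) : ℤ) : ℝ)) *
          (((chi p (f b) : ℤ) : ℝ) * ((chi p (f b) : ℤ) : ℝ)) * hsqc a ha +
          (x b * x a * ((chi p (b - a) : ℤ) : ℝ)) * hsqc b hb
      unfold qR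
      rw [Finset.sum_insert h0, Finset.sum_insert h0, g00, zero_add, Finset.sum_image hfinj,
        Finset.sum_image hfinj, Finset.sum_congr rfl g0f]
      have h6 : ∀ b ∈ S, ∑ a ∈ insert 0 (S.image f),
          y (f b) * y a * ((chi p (f b - a) : ℤ) : ℝ) =
          (σ * t) * x b + ∑ a ∈ S, x b * x a * ((chi p (b - a) : ℤ) : ℝ) := by
        intro b hb
        rw [Finset.sum_insert h0, gf0 b hb, Finset.sum_image hfinj,
          Finset.sum_congr rfl fun a ha => gff b hb a ha]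
      rw [Finset.sum_congr rfl h6, Finset.sum_add_distrib, ← Finset.mul_sum]
      ring
    rw [hnrm, hq]
    have h1 : t ^ 2 + ∑ a ∈ S, x a ^ 2 + (2 * t * (∑ a ∈ S, x a) + σ * qR S x) / Real.sqrt p -
        (∑ a ∈ S, x a ^ 2 + t ^ 2) =
        σ * ((qR S x + 2 * (σ * t) * ∑ a ∈ S, x a) / Real.sqrt p) := by
      have : σ * ((qR S x + 2 * (σ * t) * ∑ a ∈ S, x a) / Real.sqrt p) =
        (σ * qR S x + 2 * ((σ : ℝ) * σ) * t * ∑ a ∈ S, x a) / Real.sqrt p := by ring
      rw [this, hσσ]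
      ring
    rw [h1, abs_mul, abs_div, abs_of_pos hr0]
    have h2 : |(σ : ℝ)| = 1 := by rcases hσ with h | h <;> rw [h] <;> norm_num
    rw [h2, one_mul]

end Pool.Agent.Paley62
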