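import Pool.Agent.Work.MP_9d0e17_int2.Few
import Pool.Agent.Work.MP_9d0e17_int2.Red2
import Pool.Agent.Work.MP_9d0e17_int2.FrameI
import Pool.Agent.Work.MP_9d0e17_sch.Core0

set_option autoImplicit false

open Complex ComplexConjugate

namespace Pool.Agent.Paley62

open Pool.Agent.Paley67

variable {p : ℕ} [hp : Fact p.Prime]

theorem core (hp2 : p ≠ 2) (hp100 : 100 ≤ p) : Core p := by
  intro F z hz1 hz hpar hN hb
  obtain ⟨b0, hb0⟩ := hb
  exact Pool.Sch.core0 hp2 F z hz1 hpar hN (by omega) b0 (by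
    show (z : ℤ) - 1 ≤ |ta F b0|
    linarith)

/-- few values on a set of residues -/
theorem few_set (hp4 : p % 4 = 1) (S : Finset (ZMod p)) (y : ZMod p → ℝ)
    (K : ℝ) (hK : 1 ≤ K) (k : ℕ)
    (hk : ((S.image fun a => |y a|).erase 0).card ≤ k) (hm : (S.card : ℝ) ≤ K * Real.sqrt p)
    (hX : 6 * (17 * K) ^ k ≤ Real.sqrt p) :
    |qR S y| / Real.sqrt p ≤ (1 - 1 / (6 * (17 * K) ^ k) ^ 2) * ∑ a ∈ S, y a ^ 2 := by
  classical
  rcases Nat.eq_zero_or_pos k with h0 | h0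
  · -- the zero vector
    have hy : ∀ a ∈ S, y a = 0 := by
      intro a ha
      by_contra hne
      have : |y a| ∈ (S.image fun a => |y a|).erase 0 :=
        Finset.mem_erase.2 ⟨abs_ne_zero.2 hne, Finset.mem_image_of_mem _ ha⟩
      rw [Finset.card_eq_zero.1 (by omega : ((S.image fun a => |y a|).erase 0).card = 0)] at this
      exact absurd this (Finset.notMem_empty _)
    have h1 : qR S y = 0 := by
      unfold qR
      refine Finset.sum_eq_zero fun b hb => Finset.sum_eq_zero fun a _ => ?_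
      rw [hy b hb]; ring
    have h2 : ∑ a ∈ S, y a ^ 2 = 0 := Finset.sum_eq_zero fun a ha => by rw [hy a ha]; ring
    rw [h1, h2]; simp
  have hp2 : p ≠ 2 := by omega
  have hX17 : 17 * K ≤ (17 * K) ^ k := by
    calc 17 * K = (17 * K) ^ 1 := (pow_one _).symm
      _ ≤ (17 * K) ^ k := pow_le_pow_right₀ (by linarith) h0
  have hr102 : 102 ≤ Real.sqrt p := by linarith
  have hrr : Real.sqrt p * Real.sqrt p = p := Real.mul_self_sqrt (Nat.cast_nonneg _)
  have hp100 : 100 ≤ p := by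
    have : (100 : ℝ) ≤ p := by nlinarith
    exact_mod_cast this
  let v : ZMod p → ℝ := fun a => if a ∈ S then y a else 0
  have hvS : ∀ a ∈ S, v a = y a := fun a ha => if_pos ha
  have hv0 : ∀ a, a ∉ S → v a = 0 := fun a ha => if_neg ha
  have himg : (S.image fun a => |v a|) = S.image fun a => |y a| :=
    Finset.image_congr fun a ha => by
      show |v a| = |y a|
      rw [hvS a ha]
  have h := few_real (core hp2 hp100) hp2 S v hv0 K hK k (by rw [himg]; exact hk) hm hX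
  have hq : qR S v = qR S y := by
    unfold qR
    exact Finset.sum_congr rfl fun b hb => Finset.sum_congr rfl fun a ha => by
      rw [hvS b hb, hvS a ha]
  have hs : ∑ a ∈ S, v a ^ 2 = ∑ a ∈ S, y a ^ 2 :=
    Finset.sum_congr rfl fun a ha => by rw [hvS a ha]
  rw [hq, hs] at h
  have : (1 - 1 / (6 * (17 * K) ^ k) ^ 2) * ∑ a ∈ S, y a ^ 2 =
      ∑ a ∈ S, y a ^ 2 - (∑ a ∈ S, y a ^ 2) / (6 * (17 * K) ^ k) ^ 2 := by ring
  rw [this]
  linarith

/-- integer vectors on a set of residues -/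
theorem int_set (hp4 : p % 4 = 1) (hp100 : 100 ≤ p) (S : Finset (ZMod p)) (y : ZMod p → ℝ)
    (hy : ∀ a ∈ S, ∃ n : ℤ, y a = n) (hS : 3 * S.card ≤ p)
    (hN : 10 * ∑ a ∈ S, |y a| ≤ 9 * (p : ℝ)) :
    |qR S y| / Real.sqrt p ≤
      ∑ a ∈ S, y a ^ 2 - 1 / 16 * min (∑ a ∈ S, y a ^ 2) ((p : ℝ) / S.card) := by
  have hp2 : p ≠ 2 := by omega
  have he : ∀ a ∈ S, ((⌊y a⌋ : ℤ) : ℝ) = y a := by
    intro a ha
    obtain ⟨n, hn⟩ := hy a ha
    rw [hn, Int.floor_intCast]
  have hsum : ((∑ a ∈ S, ⌊y a⌋ ^ 2 : ℤ) : ℝ) = ∑ a ∈ S, y a ^ 2 := by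
    push_cast
    exact Finset.sum_congr rfl fun a ha => by rw [he a ha]
  have hq : ((qS S (fun a => ⌊y a⌋) : ℤ) : ℝ) = qR S y := by
    unfold qS qR
    push_cast
    exact Finset.sum_congr rfl fun b hb => Finset.sum_congr rfl fun a ha => by
      rw [he b hb, he a ha]
  have hN' : 10 * ∑ a ∈ S, (⌊y a⌋).natAbs ≤ 9 * p := by
    have h1 : ((10 * ∑ a ∈ S, (⌊y a⌋).natAbs : ℕ) : ℝ) ≤ ((9 * p : ℕ) : ℝ) := by
      push_cast
      refine le_trans (le_of_eq ?_) hN
      congr 1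
      refine Finset.sum_congr rfl fun a ha => ?_
      rw [Nat.cast_natAbs, Int.cast_abs, he a ha]
    exact_mod_cast h1
  have h := int_lower (core hp2 hp100) hp100 S (fun a => ⌊y a⌋) hS hN'
  rw [hsum, hq] at h
  linarith

/-- passage from the frame to a set of residues, for real vectors -/
theorem real_part (hp4 : p % 4 = 1) (S : Finset ℕ) (hS : S ⊆ Finset.range (p + 1))
    (hSc : S.card ≤ p) (x : ℕ → ℝ) :
    ∃ (S' : Finset (ZMod p)) (y : ZMod p → ℝ), S'.card = S.card ∧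
      (∀ g : ℝ → ℝ, (∀ u, g (-u) = g u) → ∑ a ∈ S', g (y a) = ∑ j ∈ S, g (x j)) ∧
      (∀ a ∈ S', ∃ j ∈ S, y a = x j ∨ y a = -x j) ∧
      |nrm (resSet p S) ((if p ∈ S then x p else 0 : ℝ) : ℂ) (fun a => (x a.val : ℂ)) -
        ∑ j ∈ S, x j ^ 2| = |qR S' y| / Real.sqrt p := by
  classical
  have hval : ∀ j ∈ S.erase p, x ((j : ZMod p)).val = x j := by
    intro j hj
    rw [ZMod.val_cast_of_lt (val_of_mem hS hj)]
  have hg : ∀ g : ℝ → ℝ, ∑ a ∈ resSet p S, g (x a.val) = ∑ j ∈ S.erase p, g (x j) := by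
    intro g
    rw [sum_resSet S hS (fun a => g (x a.val))]
    exact Finset.sum_congr rfl fun j hj => by rw [hval j hj]
  have hmem : ∀ a ∈ resSet p S, ∃ j ∈ S, x a.val = x j := by
    intro a ha
    obtain ⟨j, hj, rfl⟩ := Finset.mem_image.1 ha
    exact ⟨j, (Finset.mem_erase.1 hj).2, hval j hj⟩
  by_cases hpS : p ∈ S
  · have hc : (resSet p S).card + 1 = S.card := by
      rw [card_resSet_eq S hS, Finset.card_erase_of_mem hpS]
      have := Finset.card_pos.2 ⟨p, hpS⟩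
      omega
    obtain ⟨S', y, h1, h2, h3, h4⟩ := red1 hp4 (resSet p S) (by omega) (x p) (fun a => x a.val)
    refine ⟨S', y, by omega, ?_, ?_, ?_⟩
    · intro g hgg
      rw [h2 g hgg, hg g, Finset.sum_erase_add _ _ hpS]
    · intro a ha
      rcases h3 a ha with h | h | ⟨b, hb, h⟩
      · exact ⟨p, hpS, Or.inl h⟩
      · exact ⟨p, hpS, Or.inr h⟩
      · obtain ⟨j, hj, hjb⟩ := hmem b hb
        refine ⟨j, hj, ?_⟩
        rw [← hjb]
        exact h
    · rw [if_pos hpS, ← h4]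
      rw [hg (fun u => u ^ 2), Finset.sum_erase_add _ _ hpS]
  · have hc : (resSet p S).card = S.card := by
      rw [card_resSet_eq S hS, Finset.erase_eq_of_notMem hpS]
    refine ⟨resSet p S, fun a => x a.val, hc, ?_, ?_, ?_⟩
    · intro g _
      rw [hg g, Finset.erase_eq_of_notMem hpS]
    · intro a ha
      obtain ⟨j, hj, hja⟩ := hmem a ha
      exact ⟨j, hj, Or.inl hja⟩
    · rw [if_neg hpS, ← red0 hp4]
      rw [hg (fun u => u ^ 2), Finset.erase_eq_of_notMem hpS]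

/-- splitting the frame norm of a complex vector -/
theorem complex_part (hp4 : p % 4 = 1) (S : Finset ℕ) (hS : S ⊆ Finset.range (p + 1))
    (v : ℕ → ℂ) :
    |∑ r ∈ (Finset.range p).image (fun s => s * s % p), ‖∑ j ∈ S, Ph p r j * v j‖ ^ 2 -
        ∑ j ∈ S, ‖v j‖ ^ 2| ≤
      |nrm (resSet p S) ((if p ∈ S then (v p).re else 0 : ℝ) : ℂ)
          (fun a => ((v a.val).re : ℂ)) - ∑ j ∈ S, (v j).re ^ 2| +
      |nrm (resSet p S) ((if p ∈ S then (v p).im else 0 : ℝ) : ℂ)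
          (fun a => ((v a.val).im : ℂ)) - ∑ j ∈ S, (v j).im ^ 2| := by
  rw [frame_nrm S hS v, nrm_split hp4]
  have h1 : (if p ∈ S then v p else 0 : ℂ).re = (if p ∈ S then (v p).re else 0 : ℝ) := by
    split_ifs <;> simp
  have h2 : (if p ∈ S then v p else 0 : ℂ).im = (if p ∈ S then (v p).im else 0 : ℝ) := by
    split_ifs <;> simp
  have h3 : ∑ j ∈ S, ‖v j‖ ^ 2 = ∑ j ∈ S, (v j).re ^ 2 + ∑ j ∈ S, (v j).im ^ 2 := by
    rw [← Finset.sum_add_distrib]
    refine Finset.sum_congr rfl fun a _ => ?_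
    rw [← Complex.normSq_eq_norm_sq, Complex.normSq_apply]; ring
  rw [h1, h2, h3]
  refine le_trans (le_of_eq ?_) (abs_add_le _ _)
  congr 1
  ring

theorem norm_parts (S : Finset ℕ) (v : ℕ → ℂ) :
    ∑ j ∈ S, ‖v j‖ ^ 2 = ∑ j ∈ S, (v j).re ^ 2 + ∑ j ∈ S, (v j).im ^ 2 := by
  rw [← Finset.sum_add_distrib]
  refine Finset.sum_congr rfl fun a _ => ?_
  rw [← Complex.normSq_eq_norm_sq, Complex.normSq_apply]; ring

omit hp in
theorem levels (S : Finset ℕ) (S' : Finset (ZMod p)) (x : ℕ → ℝ) (y : ZMod p → ℝ) (k : ℕ)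
    (h : ∀ a ∈ S', ∃ j ∈ S, y a = x j ∨ y a = -x j)
    (hk : ((S.image fun j => |x j|).erase 0).card ≤ k) :
    ((S'.image fun a => |y a|).erase 0).card ≤ k := by
  classical
  refine le_trans (Finset.card_le_card (Finset.erase_subset_erase _ ?_)) hk
  intro u hu
  obtain ⟨a, ha, rfl⟩ := Finset.mem_image.1 hu
  obtain ⟨j, hj, h' | h'⟩ := h a ha
  · exact Finset.mem_image.2 ⟨j, hj, by rw [h']⟩
  · exact Finset.mem_image.2 ⟨j, hj, by simp only [h', abs_neg]⟩

/-- few values, in the frame -/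
theorem few_frame (hp4 : p % 4 = 1) (S : Finset ℕ) (hS : S ⊆ Finset.range (p + 1))
    (K : ℝ) (hK : 1 ≤ K) (k : ℕ) (hm : (S.card : ℝ) ≤ K * Real.sqrt p)
    (hX : 6 * (17 * K) ^ k ≤ Real.sqrt p) (v : ℕ → ℂ)
    (hre : ((S.image fun j => |(v j).re|).erase 0).card ≤ k)
    (him : ((S.image fun j => |(v j).im|).erase 0).card ≤ k) :
    |∑ r ∈ (Finset.range p).image (fun s => s * s % p), ‖∑ j ∈ S, Ph p r j * v j‖ ^ 2 -
        ∑ j ∈ S, ‖v j‖ ^ 2| ≤
      (1 - 1 / (6 * (17 * K) ^ k) ^ 2) * ∑ j ∈ S, ‖v j‖ ^ 2 := by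
  classical
  have hrr : Real.sqrt p * Real.sqrt p = p := Real.mul_self_sqrt (Nat.cast_nonneg _)
  have hr0 : 0 ≤ Real.sqrt (p : ℝ) := Real.sqrt_nonneg _
  rcases Nat.eq_zero_or_pos k with h0 | h0
  · -- the zero vector
    have hz : ∀ x : ℕ → ℝ, ((S.image fun j => |x j|).erase 0).card ≤ k → ∀ j ∈ S, x j = 0 := by
      intro x hx j hj
      by_contra hne
      have : |x j| ∈ (S.image fun j => |x j|).erase 0 :=
        Finset.mem_erase.2 ⟨abs_ne_zero.2 hne, Finset.mem_image_of_mem _ hj⟩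
      rw [Finset.card_eq_zero.1 (by omega : ((S.image fun j => |x j|).erase 0).card = 0)] at this
      exact absurd this (Finset.notMem_empty _)
    have hv : ∀ j ∈ S, v j = 0 := fun j hj =>
      Complex.ext (hz (fun j => (v j).re) hre j hj) (hz (fun j => (v j).im) him j hj)
    have h1 : ∑ j ∈ S, ‖v j‖ ^ 2 = 0 := Finset.sum_eq_zero fun j hj => by rw [hv j hj]; simp
    have h2 : ∀ r, ∑ j ∈ S, Ph p r j * v j = 0 := fun r =>
      Finset.sum_eq_zero fun j hj => by rw [hv j hj]; simp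
    rw [h1]
    simp [h2]
  have hSc : S.card ≤ p := by
    have hX17 : 17 * K ≤ (17 * K) ^ k := by
      calc 17 * K = (17 * K) ^ 1 := (pow_one _).symm
        _ ≤ (17 * K) ^ k := pow_le_pow_right₀ (by linarith) h0
    have h1 : (S.card : ℝ) ≤ p := by
      calc (S.card : ℝ) ≤ K * Real.sqrt p := hm
        _ ≤ Real.sqrt p * Real.sqrt p := mul_le_mul_of_nonneg_right (by linarith) hr0
        _ = p := hrr
    exact_mod_cast h1
  refine (complex_part hp4 S hS v).trans ?_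
  rw [norm_parts, mul_add]
  apply add_le_add
  · obtain ⟨S', y, h1, h2, h3, h4⟩ := real_part hp4 S hS hSc (fun j => (v j).re)
    rw [h4, ← h2 (fun u => u ^ 2) (fun u => by ring)]
    exact few_set hp4 S' y K hK k (levels S S' _ y k h3 hre) (by rw [h1]; exact hm) hX
  · obtain ⟨S', y, h1, h2, h3, h4⟩ := real_part hp4 S hS hSc (fun j => (v j).im)
    rw [h4, ← h2 (fun u => u ^ 2) (fun u => by ring)]
    exact few_set hp4 S' y K hK k (levels S S' _ y k h3 him) (by rw [h1]; exact hm) hX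

/-- Gaussian integer vectors, in the frame -/
theorem int_frame2 (hp4 : p % 4 = 1) (hp100 : 100 ≤ p) (S : Finset ℕ)
    (hS : S ⊆ Finset.range (p + 1)) (hS3 : 3 * S.card ≤ p) (v : ℕ → ℂ)
    (hint : ∀ j ∈ S, ∃ m n : ℤ, v j = m + n * Complex.I)
    (hre : 10 * ∑ j ∈ S, |(v j).re| ≤ 9 * (p : ℝ))
    (him : 10 * ∑ j ∈ S, |(v j).im| ≤ 9 * (p : ℝ)) :
    |∑ r ∈ (Finset.range p).image (fun s => s * s % p), ‖∑ j ∈ S, Ph p r j * v j‖ ^ 2 -
        ∑ j ∈ S, ‖v j‖ ^ 2| ≤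
      ∑ j ∈ S, ‖v j‖ ^ 2 - 1 / 16 * min (∑ j ∈ S, ‖v j‖ ^ 2) ((p : ℝ) / S.card) := by
  refine (complex_part hp4 S hS v).trans ?_
  obtain ⟨S1, y1, h11, h12, h13, h14⟩ := real_part hp4 S hS (by omega) (fun j => (v j).re)
  obtain ⟨S2, y2, h21, h22, h23, h24⟩ := real_part hp4 S hS (by omega) (fun j => (v j).im)
  have hA := h12 (fun u => u ^ 2) (fun u => by ring)
  have hB := h22 (fun u => u ^ 2) (fun u => by ring)
  have hA1 := h12 (fun u => |u|) (fun u => abs_neg u)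
  have hB1 := h22 (fun u => |u|) (fun u => abs_neg u)
  have hy1 : ∀ a ∈ S1, ∃ n : ℤ, y1 a = n := by
    intro a ha
    obtain ⟨j, hj, h⟩ := h13 a ha
    obtain ⟨m, n, hmn⟩ := hint j hj
    have : (v j).re = m := by rw [hmn]; simp
    rcases h with h | h
    · exact ⟨m, by rw [h, this]⟩
    · exact ⟨-m, by rw [h, this]; push_cast; ring⟩
  have hy2 : ∀ a ∈ S2, ∃ n : ℤ, y2 a = n := by
    intro a ha
    obtain ⟨j, hj, h⟩ := h23 a ha
    obtain ⟨m, n, hmn⟩ := hint j hj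
    have : (v j).im = n := by rw [hmn]; simp
    rcases h with h | h
    · exact ⟨n, by rw [h, this]⟩
    · exact ⟨-n, by rw [h, this]; push_cast; ring⟩
  have e1 := int_set hp4 hp100 S1 y1 hy1 (by omega) (by rw [hA1]; exact hre)
  have e2 := int_set hp4 hp100 S2 y2 hy2 (by omega) (by rw [hB1]; exact him)
  rw [hA, h11] at e1
  rw [hB, h21] at e2
  rw [h14, h24, norm_parts]
  refine (add_le_add e1 e2).trans ?_
  set A := ∑ j ∈ S, (v j).re ^ 2
  set B := ∑ j ∈ S, (v j).im ^ 2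
  have hA0 : 0 ≤ A := Finset.sum_nonneg fun _ _ => sq_nonneg _
  have hB0 : 0 ≤ B := Finset.sum_nonneg fun _ _ => sq_nonneg _
  have hC0 : 0 ≤ (p : ℝ) / S.card := by positivity
  have h5 : min (A + B) ((p : ℝ) / S.card) ≤ min A ((p : ℝ) / S.card) + min B ((p : ℝ) / S.card) := by
    rcases le_total A ((p : ℝ) / S.card) with h | h
    · rcases le_total B ((p : ℝ) / S.card) with h' | h'
      · rw [min_eq_left h, min_eq_left h']; exact min_le_left _ _
      · rw [min_eq_left h, min_eq_right h']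
        exact (min_le_right _ _).trans (by linarith)
    · rw [min_eq_right h]
      refine (min_le_right _ _).trans ?_
      have : 0 ≤ min B ((p : ℝ) / S.card) := le_min hB0 hC0
      linarith
  linarith

end Pool.Agent.Paley62
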