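import Pool.Agent.Work.MP_9d0e17_co.FlatFrame
import Pool.Agent.Work.CharSums71.Sums

set_option autoImplicit false

/-!
Integer vectors on columns of the Paley frame: from the polynomial inequality `Core p` (points
outside the support only) to a lower bound for the norm.
-/

namespace Pool.Agent.Paley62

open Pool.Agent.Paley67

variable {p : ℕ} [hp : Fact p.Prime]

/-- the character sums of an integer vector -/
noncomputable def ta (F : ZMod p → ℤ) (b : ZMod p) : ℤ := ∑ a, F a * chi p (b - a)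

/-- the support of an integer vector -/
def sup (F : ZMod p → ℤ) : Finset (ZMod p) := Finset.univ.filter fun a => F a ≠ 0

/-- the sum of the absolute values -/
def l1 (F : ZMod p → ℤ) : ℕ := ∑ a, (F a).natAbs

/-- the sum of the squares -/
def l2 (F : ZMod p → ℤ) : ℤ := ∑ a, F a ^ 2

/-- the polynomial inequality for integer vectors -/
def Core (p : ℕ) [Fact p.Prime] : Prop :=
  ∀ (F : ZMod p → ℤ) (z : ℕ), 1 ≤ z → 2 * z ≤ p / 2 + 3 → Even (l1 F + z) → l1 F + z ≤ p + 1 →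
    (∃ b, (z : ℤ) ≤ |ta F b| + 1) →
    ∑ b ∈ Finset.univ.filter (fun b => F b = 0), max 0 ((z : ℤ) ^ 2 - ta F b ^ 2) ≤
      ((p : ℤ) - 1) * ((z : ℤ) ^ 2 - z)

theorem sum_chi_pair (hp2 : p ≠ 2) (a a' : ZMod p) :
    ∑ b, chi p (b - a) * chi p (b - a') = (if a = a' then (p : ℤ) else 0) - 1 :=
  Pool.Agent.Work.CharSums71.sum_chi_mul' hp2 a a'

theorem parseval_int (hp2 : p ≠ 2) (F : ZMod p → ℤ) :
    ∑ b, ta F b ^ 2 = p * l2 F - (∑ a, F a) ^ 2 := by
  classical
  have h1 : ∀ b, ta F b ^ 2 = ∑ a, ∑ a', F a * F a' * (chi p (b - a) * chi p (b - a')) := by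
    intro b
    unfold ta
    rw [sq, Finset.sum_mul_sum]
    refine Finset.sum_congr rfl fun a _ => Finset.sum_congr rfl fun a' _ => ?_
    ring
  rw [Finset.sum_congr rfl fun b _ => h1 b, Finset.sum_comm]
  have h2 : ∀ a : ZMod p, ∑ b, ∑ a', F a * F a' * (chi p (b - a) * chi p (b - a')) =
      p * F a ^ 2 - F a * ∑ a', F a' := by
    intro a
    rw [Finset.sum_comm]
    have h3 : ∀ a' : ZMod p, ∑ b, F a * F a' * (chi p (b - a) * chi p (b - a')) =
        (if a = a' then p * (F a * F a') else 0) - F a * F a' := by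
      intro a'
      rw [← Finset.mul_sum, sum_chi_pair hp2]
      split_ifs with h <;> ring
    rw [Finset.sum_congr rfl fun a' _ => h3 a', Finset.sum_sub_distrib, Finset.sum_ite_eq,
      if_pos (Finset.mem_univ _), ← Finset.mul_sum]
    ring
  rw [Finset.sum_congr rfl fun a _ => h2 a, Finset.sum_sub_distrib, ← Finset.mul_sum,
    ← Finset.sum_mul]
  unfold l2
  ring

theorem compl_sup (F : ZMod p → ℤ) (f : ZMod p → ℤ) :
    ∑ b ∈ sup F, f b + ∑ b ∈ Finset.univ.filter (fun b => F b = 0), f b = ∑ b, f b := by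
  classical
  unfold sup
  rw [← Finset.sum_filter_add_sum_filter_not Finset.univ (fun b => F b = 0) f, add_comm]

theorem l2_sup (F : ZMod p → ℤ) : ∑ b ∈ sup F, F b ^ 2 = l2 F := by
  have h := compl_sup F (fun b => F b ^ 2)
  have h0 : ∑ b ∈ Finset.univ.filter (fun b => F b = 0), F b ^ 2 = 0 := by
    apply Finset.sum_eq_zero
    intro b hb
    rw [(Finset.mem_filter.1 hb).2]; norm_num
  unfold l2
  linarith

theorem sum_sup (F : ZMod p → ℤ) : ∑ b ∈ sup F, F b = ∑ b, F b := by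
  have h := compl_sup F (fun b => F b)
  have h0 : ∑ b ∈ Finset.univ.filter (fun b => F b = 0), F b = 0 := by
    apply Finset.sum_eq_zero
    intro b hb
    exact (Finset.mem_filter.1 hb).2
  linarith

theorem sum_sq_le (F : ZMod p → ℤ) : (∑ a, F a) ^ 2 ≤ (sup F).card * l2 F := by
  rw [← sum_sup, ← l2_sup]
  exact sq_sum_le_card_mul_sum_sq

theorem card_le_l2 (F : ZMod p → ℤ) : ((sup F).card : ℤ) ≤ l2 F := by
  rw [← l2_sup]
  have : ∑ b ∈ sup F, (1 : ℤ) ≤ ∑ b ∈ sup F, F b ^ 2 := by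
    refine Finset.sum_le_sum fun b hb => ?_
    have h : F b ≠ 0 := (Finset.mem_filter.1 hb).2
    have : 0 < F b ^ 2 := by positivity
    omega
  simpa using this

theorem card_off (F : ZMod p → ℤ) :
    ((Finset.univ.filter (fun b => F b = 0)).card : ℤ) = p - (sup F).card := by
  have h := compl_sup F (fun _ => 1)
  simp only [Finset.sum_const, nsmul_eq_mul, mul_one, Finset.card_univ, ZMod.card] at h
  linarith

/-- the mass outside the support -/
theorem off_supp (hC : Core p) (hp2 : p ≠ 2) (F : ZMod p → ℤ) (z : ℕ) (hz1 : 1 ≤ z)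
    (hz : 2 * z ≤ p / 2 + 3) (hpar : Even (l1 F + z)) (hN : l1 F + z ≤ p + 1)
    (hm : z ≤ (sup F).card) :
    ((p : ℤ) - 1) * z - (((sup F).card : ℤ) - 1) * (z : ℤ) ^ 2 ≤
      ∑ b ∈ Finset.univ.filter (fun b => F b = 0), ta F b ^ 2 := by
  by_cases h : ∃ b, (z : ℤ) ≤ |ta F b| + 1
  · have h1 := hC F z hz1 hz hpar hN h
    have h2 : ∑ b ∈ Finset.univ.filter (fun b => F b = 0), ((z : ℤ) ^ 2 - ta F b ^ 2) ≤
        ∑ b ∈ Finset.univ.filter (fun b => F b = 0), max 0 ((z : ℤ) ^ 2 - ta F b ^ 2) :=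
      Finset.sum_le_sum fun b _ => le_max_right _ _
    rw [Finset.sum_sub_distrib, Finset.sum_const, nsmul_eq_mul, card_off] at h2
    nlinarith
  · push Not at h
    have hpars := parseval_int hp2 F
    have hsplit := compl_sup F (fun b => ta F b ^ 2)
    have h2z : (2 : ℤ) ≤ z := by
      have := h 0
      have h0 := abs_nonneg (ta F 0)
      omega
    have h3 : ∑ b ∈ sup F, ta F b ^ 2 ≤ (sup F).card * ((z : ℤ) - 2) ^ 2 := by
      have : ∑ b ∈ sup F, ta F b ^ 2 ≤ ∑ b ∈ sup F, ((z : ℤ) - 2) ^ 2 := by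
        refine Finset.sum_le_sum fun b _ => ?_
        rw [← sq_abs]
        have h5 : |ta F b| ≤ (z : ℤ) - 2 := by
          have := h b
          omega
        exact pow_le_pow_left₀ (abs_nonneg _) h5 2
      simpa using this
    have h4 := sum_sq_le F
    have h5 := card_le_l2 F
    have h6 : ((sup F).card : ℤ) ≤ p := by
      have : (sup F).card ≤ p := by
        have := Finset.card_le_univ (sup F)
        rwa [ZMod.card] at this
      exact_mod_cast this
    have h7 : (z : ℤ) ≤ (sup F).card := by exact_mod_cast hm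
    set m : ℤ := ((sup F).card : ℤ)
    set Z : ℤ := (z : ℤ)
    set L := l2 F
    have h8 : 0 ≤ ((p : ℤ) - m) * (L - Z) := mul_nonneg (by linarith) (by linarith)
    have h9 : 0 ≤ Z * (m - Z) := mul_nonneg (by linarith) (by linarith)
    have h10 : 0 ≤ (2 * m + 1) * (Z - 2) := mul_nonneg (by linarith) (by linarith)
    nlinarith

/-- the quadratic form of the Paley matrix -/
theorem qS_sup (F : ZMod p → ℤ) : qS (sup F) F = ∑ b ∈ sup F, F b * ta F b := by
  unfold qS ta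
  refine Finset.sum_congr rfl fun b _ => ?_
  rw [Finset.mul_sum]
  have h := compl_sup F (fun a => F b * F a * chi p (b - a))
  have h0 : ∑ a ∈ Finset.univ.filter (fun a => F a = 0), F b * F a * chi p (b - a) = 0 := by
    apply Finset.sum_eq_zero
    intro a ha
    rw [(Finset.mem_filter.1 ha).2]; ring
  have h1 : ∑ a, F b * F a * chi p (b - a) = ∑ a, F b * (F a * chi p (b - a)) :=
    Finset.sum_congr rfl fun a _ => by ring
  linarith

theorem int_quad (hC : Core p) (hp2 : p ≠ 2) (F : ZMod p → ℤ) (z : ℕ) (hz1 : 1 ≤ z)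
    (hz : 2 * z ≤ p / 2 + 3) (hpar : Even (l1 F + z)) (hN : l1 F + z ≤ p + 1)
    (hm : z ≤ (sup F).card) :
    2 * Real.sqrt p * |(qS (sup F) F : ℝ)| ≤
      2 * (l2 F) * p - (z * ((p : ℝ) - 1) - ((sup F).card - 1) * (z : ℝ) ^ 2) := by
  set r := Real.sqrt p with hr
  have hr0 : 0 ≤ r := Real.sqrt_nonneg _
  have hrr : r * r = p := Real.mul_self_sqrt (Nat.cast_nonneg _)
  have h1 := off_supp hC hp2 F z hz1 hz hpar hN hm
  have hpars := parseval_int hp2 F
  have hsplit := compl_sup F (fun b => ta F b ^ 2)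
  have h2 : ∑ b ∈ sup F, ta F b ^ 2 ≤ p * l2 F -
      (((p : ℤ) - 1) * z - (((sup F).card : ℤ) - 1) * (z : ℤ) ^ 2) := by
    nlinarith [sq_nonneg (∑ a, F a)]
  have h2' : ∑ b ∈ sup F, ((ta F b : ℤ) : ℝ) ^ 2 ≤ p * (l2 F : ℝ) -
      (((p : ℝ) - 1) * z - (((sup F).card : ℝ) - 1) * (z : ℝ) ^ 2) := by
    exact_mod_cast h2
  have h3 : ∑ b ∈ sup F, ((F b : ℤ) : ℝ) ^ 2 = (l2 F : ℝ) := by
    have := l2_sup F
    exact_mod_cast this
  have h4 : ∑ b ∈ sup F, ((F b : ℤ) : ℝ) * ((ta F b : ℤ) : ℝ) = (qS (sup F) F : ℝ) := by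
    have := (qS_sup F).symm
    exact_mod_cast this
  have main : ∀ σ : ℝ, σ * σ = 1 → 2 * r * (σ * (qS (sup F) F : ℝ)) ≤
      2 * (l2 F) * p - (z * ((p : ℝ) - 1) - ((sup F).card - 1) * (z : ℝ) ^ 2) := by
    intro σ hσ
    have h5 : 0 ≤ ∑ b ∈ sup F, (((ta F b : ℤ) : ℝ) - σ * r * ((F b : ℤ) : ℝ)) ^ 2 :=
      Finset.sum_nonneg fun b _ => sq_nonneg _
    have h6 : ∑ b ∈ sup F, (((ta F b : ℤ) : ℝ) - σ * r * ((F b : ℤ) : ℝ)) ^ 2 =
        ∑ b ∈ sup F, ((ta F b : ℤ) : ℝ) ^ 2 -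
          2 * σ * r * ∑ b ∈ sup F, ((F b : ℤ) : ℝ) * ((ta F b : ℤ) : ℝ) +
          σ * σ * (r * r) * ∑ b ∈ sup F, ((F b : ℤ) : ℝ) ^ 2 := by
      rw [Finset.mul_sum, Finset.mul_sum, ← Finset.sum_sub_distrib, ← Finset.sum_add_distrib]
      refine Finset.sum_congr rfl fun b _ => ?_
      ring
    rw [h6, h4, h3, hσ, hrr] at h5
    nlinarith
  rcases abs_cases (qS (sup F) F : ℝ) with h | h
  · rw [h.1]
    have := main 1 (by norm_num)
    simpa using this
  · rw [h.1]
    have := main (-1) (by norm_num)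
    simpa using this

theorem int_gersh (F : ZMod p → ℤ) :
    |(qS (sup F) F : ℝ)| ≤ (((sup F).card : ℝ) - 1) * (l2 F) := by
  classical
  have h1 : |qS (sup F) F| ≤ (((sup F).card : ℤ) - 1) * l2 F := by
    have h2 : |qS (sup F) F| ≤ (∑ b ∈ sup F, |F b|) ^ 2 - ∑ b ∈ sup F, |F b| ^ 2 := by
      have h3 : (∑ b ∈ sup F, |F b|) ^ 2 - ∑ b ∈ sup F, |F b| ^ 2 =
          ∑ b ∈ sup F, (∑ a ∈ sup F, |F b| * |F a| - |F b| ^ 2) := by
        rw [Finset.sum_sub_distrib, sq, Finset.sum_mul_sum]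
      rw [h3]
      unfold qS
      refine (Finset.abs_sum_le_sum_abs _ _).trans (Finset.sum_le_sum fun b hb => ?_)
      rw [← Finset.add_sum_erase _ _ hb, ← Finset.add_sum_erase _ (fun a => |F b| * |F a|) hb]
      have h0 : chi p (b - b) = 0 := by rw [sub_self]; exact quadraticChar_zero
      rw [h0, mul_zero, zero_add]
      have h4 : |F b| * |F b| + ∑ a ∈ (sup F).erase b, |F b| * |F a| - |F b| ^ 2 =
          ∑ a ∈ (sup F).erase b, |F b| * |F a| := by ring
      rw [h4]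
      refine (Finset.abs_sum_le_sum_abs _ _).trans (Finset.sum_le_sum fun a ha => ?_)
      have h5 : chi p (b - a) = 1 ∨ chi p (b - a) = -1 :=
        quadraticChar_dichotomy (sub_ne_zero.2 (Finset.mem_erase.1 ha).1.symm)
      rw [abs_mul, abs_mul]
      have h6 : |chi p (b - a)| = 1 := by
        rcases h5 with h | h <;> rw [h] <;> norm_num
      rw [h6, mul_one]
    have h3 : (∑ b ∈ sup F, |F b|) ^ 2 ≤ (sup F).card * ∑ b ∈ sup F, |F b| ^ 2 :=
      sq_sum_le_card_mul_sum_sq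
    have h4 : ∑ b ∈ sup F, |F b| ^ 2 = l2 F := by
      rw [← l2_sup]
      exact Finset.sum_congr rfl fun b _ => sq_abs _
    rw [h4] at h2 h3
    linarith
  exact_mod_cast h1

theorem int_lower' (hC : Core p) (hp100 : 100 ≤ p) (F : ZMod p → ℤ)
    (hS : 3 * (sup F).card ≤ p) (hN : 10 * l1 F ≤ 9 * p) :
    1 / 16 * min (l2 F : ℝ) (p / (sup F).card) ≤
      l2 F - |(qS (sup F) F : ℝ)| / Real.sqrt p := by
  have hp2 : p ≠ 2 := by omega
  have hp0 : (100 : ℝ) ≤ p := by exact_mod_cast hp100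
  set r := Real.sqrt p with hr
  have hr10 : 10 ≤ r := by
    apply Real.le_sqrt_of_sq_le; norm_num; linarith
  have hrr : r * r = p := Real.mul_self_sqrt (Nat.cast_nonneg _)
  have hr0 : 0 < r := by linarith
  set L : ℝ := (l2 F : ℝ) with hL
  have hL0 : 0 ≤ L := by
    rw [hL]
    have : 0 ≤ l2 F := Finset.sum_nonneg fun a _ => sq_nonneg _
    exact_mod_cast this
  set m := ((sup F).card : ℝ) with hm
  have hm0 : 0 ≤ m := Nat.cast_nonneg _
  have hS' : 3 * m ≤ p := by rw [hm]; exact_mod_cast hS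
  rcases le_or_gt (m - 1) (15 / 16 * r) with h | h
  · -- small sets
    have h1 := int_gersh F
    rw [← hm, ← hL] at h1
    have h2 : |(qS (sup F) F : ℝ)| / r ≤ 15 / 16 * L := by
      rw [div_le_iff₀ hr0]
      calc |(qS (sup F) F : ℝ)| ≤ (m - 1) * L := h1
        _ ≤ (15 / 16 * r) * L := mul_le_mul_of_nonneg_right h hL0
        _ = 15 / 16 * L * r := by ring
    have h3 : min L (p / m) ≤ L := min_le_left _ _
    linarith
  · -- large sets
    have hm1 : 9 < m - 1 := by linarith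
    set z0 := ((p : ℝ) - 1) / (2 * (m - 1)) with hz0
    have hz0e : z0 * (2 * (m - 1)) = (p : ℝ) - 1 := div_mul_cancel₀ _ (by positivity)
    have h32 : 3 / 2 ≤ z0 := by
      rw [hz0, le_div_iff₀ (by positivity)]
      linarith
    have hz0r : z0 ≤ 8 / 15 * r := by
      rw [hz0, div_le_iff₀ (by positivity)]
      nlinarith
    obtain ⟨z, hz1, hpar, hzz⟩ := exists_parity z0 h32 (l1 F)
    have hzabs := abs_le.1 hzz
    have hzr : (z : ℝ) ≤ 8 / 15 * r + 1 := by linarith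
    have hzm : z ≤ (sup F).card := by
      have : ((z : ℕ) : ℝ) ≤ ((sup F).card : ℝ) := by rw [← hm]; linarith
      exact_mod_cast this
    have hzp : 2 * z ≤ p / 2 + 3 := by
      have : ((4 * z : ℕ) : ℝ) ≤ (p : ℝ) := by
        push_cast
        nlinarith
      have : 4 * z ≤ p := by exact_mod_cast this
      omega
    have hNz : l1 F + z ≤ p + 1 := by
      have h1 : (10 : ℝ) * (l1 F : ℝ) ≤ 9 * p := by exact_mod_cast hN
      have : ((l1 F + z : ℕ) : ℝ) ≤ ((p + 1 : ℕ) : ℝ) := by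
        push_cast
        nlinarith
      exact_mod_cast this
    have h1 := int_quad hC hp2 F z hz1 hzp hpar hNz hzm
    rw [← hr, ← hm, ← hL] at h1
    -- the gain
    have hG : 5 / 36 * (((p : ℝ) - 1) ^ 2 / (m - 1)) ≤
        z * ((p : ℝ) - 1) - (m - 1) * (z : ℝ) ^ 2 := by
      have h2 : z * ((p : ℝ) - 1) - (m - 1) * (z : ℝ) ^ 2 =
          (m - 1) * (z0 ^ 2 - ((z : ℝ) - z0) ^ 2) := by
        rw [← hz0e]; ring
      have h3 : ((z : ℝ) - z0) ^ 2 ≤ 1 := by
        rw [← sq_abs]; exact pow_le_one₀ (abs_nonneg _) hzz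
      have h4 : 5 / 36 * (((p : ℝ) - 1) ^ 2 / (m - 1)) = (m - 1) * (5 / 9 * z0 ^ 2) := by
        rw [← hz0e]; field_simp; ring
      rw [h2, h4]
      apply mul_le_mul_of_nonneg_left _ (by linarith)
      nlinarith
    have h5 : |(qS (sup F) F : ℝ)| / r ≤ L - 5 / 36 * (((p : ℝ) - 1) ^ 2 / (m - 1)) / (2 * p) := by
      rw [div_le_iff₀ hr0]
      have h6 : |(qS (sup F) F : ℝ)| * (2 * r) ≤
          (L - 5 / 36 * (((p : ℝ) - 1) ^ 2 / (m - 1)) / (2 * p)) * r * (2 * r) := by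
        have h7 : (L - 5 / 36 * (((p : ℝ) - 1) ^ 2 / (m - 1)) / (2 * p)) * r * (2 * r) =
            2 * L * p - 5 / 36 * (((p : ℝ) - 1) ^ 2 / (m - 1)) := by
          have : (L - 5 / 36 * (((p : ℝ) - 1) ^ 2 / (m - 1)) / (2 * p)) * r * (2 * r) =
            (L - 5 / 36 * (((p : ℝ) - 1) ^ 2 / (m - 1)) / (2 * p)) * 2 * (r * r) := by ring
          rw [this, hrr]
          field_simp
        rw [h7]
        linarith
      exact le_of_mul_le_mul_right h6 (by positivity)
    have h8 : 1 / 16 * (p / m) ≤ 5 / 36 * (((p : ℝ) - 1) ^ 2 / (m - 1)) / (2 * p) := by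
      have hmm : 0 < m - 1 := by linarith
      have hmm' : 0 < m := by linarith
      have h9 : 5 / 36 * (((p : ℝ) - 1) ^ 2 / (m - 1)) / (2 * p) =
          (5 * ((p : ℝ) - 1) ^ 2) / (72 * p * (m - 1)) := by
        field_simp; ring
      have h10 : 1 / 16 * ((p : ℝ) / m) = p / (16 * m) := by
        field_simp
      rw [h9, h10, div_le_div_iff₀ (by positivity) (by positivity)]
      have h11 : 9 * (p : ℝ) ^ 2 ≤ 10 * ((p : ℝ) - 1) ^ 2 := by nlinarith
      have h12 : (p : ℝ) * (72 * p * (m - 1)) ≤ 8 * m * (9 * (p : ℝ) ^ 2) := by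
        nlinarith [sq_nonneg (p : ℝ)]
      have h13 : 8 * m * (9 * (p : ℝ) ^ 2) ≤ 8 * m * (10 * ((p : ℝ) - 1) ^ 2) :=
        mul_le_mul_of_nonneg_left h11 (by positivity)
      linarith
    have h9 : min L (p / m) ≤ p / m := min_le_right _ _
    linarith

end Pool.Agent.Paley62
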