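import Pool.Agent.Work.MP_9d0e17_int2.Off

set_option autoImplicit false

/-!
Vectors with few values.
-/

namespace Pool.Agent.Paley62

open Pool.Agent.Paley67

/-- simultaneous approximation by pigeonhole -/
theorem dirichlet_sim (T : Finset ℝ) (Q : ℕ) (hQ : 1 ≤ Q) :
    ∃ s : ℕ, 1 ≤ s ∧ s ≤ Q ^ T.card ∧
      ∀ t ∈ T, |(s : ℝ) * t - round ((s : ℝ) * t)| ≤ 1 / Q := by
  classical
  have hQ0 : (0 : ℝ) < Q := by exact_mod_cast hQ
  have hlt : ∀ (s : ℕ) (t : ℝ), (⌊(Q : ℝ) * Int.fract ((s : ℝ) * t)⌋₊) < Q := by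
    intro s t
    rw [Nat.floor_lt (mul_nonneg hQ0.le (Int.fract_nonneg _))]
    calc (Q : ℝ) * Int.fract ((s : ℝ) * t) < Q * 1 :=
          mul_lt_mul_of_pos_left (Int.fract_lt_one _) hQ0
      _ = Q := mul_one _
  let g : ℕ → (T → Fin Q) := fun s t => ⟨⌊(Q : ℝ) * Int.fract ((s : ℝ) * (t : ℝ))⌋₊, hlt s t⟩
  have hcard : (Finset.univ : Finset (T → Fin Q)).card < (Finset.range (Q ^ T.card + 1)).card := by
    rw [Finset.card_univ, Fintype.card_fun, Fintype.card_fin, Fintype.card_coe, Finset.card_range]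
    exact Nat.lt_succ_self _
  obtain ⟨s1, hs1, s2, hs2, hne, heq⟩ := Finset.exists_ne_map_eq_of_card_lt_of_maps_to hcard
    (f := g) (fun s _ => Finset.mem_coe.2 (Finset.mem_univ _))
  have key : ∀ a b : ℕ, a < b → b ≤ Q ^ T.card → g a = g b →
      ∃ s : ℕ, 1 ≤ s ∧ s ≤ Q ^ T.card ∧
        ∀ t ∈ T, |(s : ℝ) * t - round ((s : ℝ) * t)| ≤ 1 / Q := by
    intro a b hab hb hg
    refine ⟨b - a, by omega, by omega, ?_⟩
    intro t ht
    have h1 := congrFun hg ⟨t, ht⟩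
    have h2 : ⌊(Q : ℝ) * Int.fract ((a : ℝ) * t)⌋₊ = ⌊(Q : ℝ) * Int.fract ((b : ℝ) * t)⌋₊ := by
      have := congrArg Fin.val h1
      exact this
    have ea := Nat.floor_le (mul_nonneg hQ0.le (Int.fract_nonneg ((a : ℝ) * t)))
    have ea' := Nat.lt_floor_add_one ((Q : ℝ) * Int.fract ((a : ℝ) * t))
    have eb := Nat.floor_le (mul_nonneg hQ0.le (Int.fract_nonneg ((b : ℝ) * t)))
    have eb' := Nat.lt_floor_add_one ((Q : ℝ) * Int.fract ((b : ℝ) * t))
    rw [h2] at ea ea'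
    refine (round_le _ (⌊(b : ℝ) * t⌋ - ⌊(a : ℝ) * t⌋)).trans ?_
    have hca : (a : ℝ) * t = ⌊(a : ℝ) * t⌋ + Int.fract ((a : ℝ) * t) :=
      (Int.floor_add_fract _).symm
    have hcb : (b : ℝ) * t = ⌊(b : ℝ) * t⌋ + Int.fract ((b : ℝ) * t) :=
      (Int.floor_add_fract _).symm
    have h3 : ((b - a : ℕ) : ℝ) * t - ((⌊(b : ℝ) * t⌋ - ⌊(a : ℝ) * t⌋ : ℤ) : ℝ) =
        Int.fract ((b : ℝ) * t) - Int.fract ((a : ℝ) * t) := by
      rw [Nat.cast_sub hab.le]
      push_cast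
      linarith
    rw [h3, le_div_iff₀ hQ0, ← abs_of_pos hQ0, ← abs_mul, abs_le]
    constructor
    · nlinarith
    · nlinarith
  rcases lt_or_gt_of_ne hne with h | h
  · exact key s1 s2 h (by have := Finset.mem_range.1 hs2; omega) heq
  · exact key s2 s1 h (by have := Finset.mem_range.1 hs1; omega) heq.symm

variable {p : ℕ} [hp : Fact p.Prime]

/-- the numerical end of the argument -/
theorem numeric_end (P m K V E s Q X : ℝ) (hP : 0 < P) (hm : 0 < m) (hK : 1 ≤ K) (hV : 0 < V)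
    (hs : 0 ≤ s) (hQ : 0 < Q)
    (hmK : m ^ 2 ≤ K ^ 2 * P) (hQK : 16 * K ≤ Q) (hX : 0 < X) (hsX : 17 * K * s ≤ X)
    (hE : E < V / (6 * X) ^ 2)
    (h : P ^ 2 / (64 * m) ≤ 80 * s ^ 2 * (P * m) * (E / V) + 2 * (P * m) / Q ^ 2) : False := by
  have hPm : 0 < P * m := mul_pos hP hm
  have h1 : P * m / (64 * K ^ 2) ≤ P ^ 2 / (64 * m) := by
    rw [div_le_div_iff₀ (by positivity) (by positivity)]
    have : P * m * (64 * m) = 64 * P * m ^ 2 := by ring
    rw [this]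
    have : P ^ 2 * (64 * K ^ 2) = 64 * P * (K ^ 2 * P) := by ring
    rw [this]
    exact mul_le_mul_of_nonneg_left hmK (by positivity)
  have h2 : 2 * (P * m) / Q ^ 2 ≤ P * m / (128 * K ^ 2) := by
    rw [div_le_div_iff₀ (by positivity) (by positivity)]
    have : (16 * K) ^ 2 ≤ Q ^ 2 := pow_le_pow_left₀ (by positivity) hQK 2
    nlinarith
  have hEV : E / V < 1 / (36 * X ^ 2) := by
    rw [div_lt_iff₀ hV]
    calc E < V / (6 * X) ^ 2 := hE
      _ = 1 / (36 * X ^ 2) * V := by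
        field_simp; ring
  have h3 : 80 * s ^ 2 * (P * m) * (E / V) ≤ P * m * (80 / (36 * 289 * K ^ 2)) := by
    have h4 : s ^ 2 * (E / V) ≤ 1 / (36 * 289 * K ^ 2) := by
      have h5 : s ^ 2 * (E / V) ≤ s ^ 2 * (1 / (36 * X ^ 2)) :=
        mul_le_mul_of_nonneg_left hEV.le (sq_nonneg _)
      refine h5.trans ?_
      rw [mul_one_div, div_le_div_iff₀ (by positivity) (by positivity)]
      have h6 : (17 * K * s) ^ 2 ≤ X ^ 2 := pow_le_pow_left₀ (by positivity) hsX 2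
      nlinarith
    calc 80 * s ^ 2 * (P * m) * (E / V) = 80 * (P * m) * (s ^ 2 * (E / V)) := by ring
      _ ≤ 80 * (P * m) * (1 / (36 * 289 * K ^ 2)) :=
        mul_le_mul_of_nonneg_left h4 (by positivity)
      _ = P * m * (80 / (36 * 289 * K ^ 2)) := by ring
  have h7 : P * m * (80 / (36 * 289 * K ^ 2)) < P * m / (128 * K ^ 2) := by
    rw [mul_div_assoc']
    rw [div_lt_div_iff₀ (by positivity) (by positivity)]
    have : 0 < P * m * K ^ 2 := by positivity
    nlinarith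
  have h8 : P * m / (64 * K ^ 2) = P * m / (128 * K ^ 2) + P * m / (128 * K ^ 2) := by
    field_simp; ring
  linarith

/-- the choice of `z` and the lower bound for the mass outside `S` -/
theorem low_part (hC : Core p) (hp2 : p ≠ 2) (F : ZMod p → ℤ) (S : Finset (ZMod p))
    (hF0 : ∀ a, a ∉ S → F a = 0) (hmp : 102 * (S.card : ℝ) ≤ p)
    (h : 9 / 10 * Real.sqrt p < (S.card : ℝ) - 1) (hr102 : 102 ≤ Real.sqrt p)
    (hFl2 : 15 / 256 * ((p : ℝ) / S.card) ≤ (l2 F : ℝ)) (hFl1 : ((l1 F : ℕ) : ℝ) ≤ p / 2) :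
    (p : ℝ) ^ 2 / (64 * S.card) ≤ ∑ b ∈ Sᶜ, tr (fun a => (F a : ℝ)) b ^ 2 := by
  set r := Real.sqrt p with hr
  have hr0 : 0 < r := by linarith
  have hrr : r * r = p := Real.mul_self_sqrt (Nat.cast_nonneg _)
  have hp0 : (0 : ℝ) < p := by exact_mod_cast hp.out.pos
  set m : ℝ := (S.card : ℝ) with hmdef
  have hm0 : 0 ≤ m := Nat.cast_nonneg _
  have hm1 : 0 < m := by linarith
  set z1 : ℝ := p / (32 * m) with hz1
  have hz1e : z1 * (32 * m) = p := div_mul_cancel₀ _ (by positivity)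
  have hz1b : 3 ≤ z1 := by
    rw [hz1, le_div_iff₀ (by positivity)]
    linarith
  obtain ⟨z, hzone, hpar, hzz⟩ := exists_parity z1 (by linarith) (l1 F)
  have hzabs := abs_le.1 hzz
  have hpm : (p : ℝ) / m = 32 * z1 := by
    rw [hz1]; field_simp
  have hzm : (z : ℝ) ≤ m := by
    have h1 : (m - 1) ^ 2 > (9 / 10 * r) ^ 2 :=
      pow_lt_pow_left₀ h (by positivity) (by norm_num)
    have h2 : (9 / 10 * r) ^ 2 = 81 / 100 * p := by rw [mul_pow, sq r, hrr]; norm_num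
    have h3 : z1 ≤ m / 4 := by
      rw [hz1, div_le_iff₀ (by positivity)]
      nlinarith
    linarith
  have hzm' : z ≤ S.card := by
    rw [hmdef] at hzm
    exact_mod_cast hzm
  have hzL : (z : ℤ) ≤ l2 F := by
    have : (z : ℝ) ≤ (l2 F : ℝ) := by
      refine le_trans ?_ hFl2
      rw [hpm]
      linarith
    exact_mod_cast this
  have hz4 : 4 * (z : ℝ) ≤ p := by
    have : (p : ℝ) = 32 * z1 * m := by rw [← hz1e]; ring
    nlinarith
  have hzhalf : 2 * z ≤ p / 2 + 3 := by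
    have : 4 * z ≤ p := by exact_mod_cast hz4
    omega
  have hNz : l1 F + z ≤ p + 1 := by
    have h1 : ((l1 F + z : ℕ) : ℝ) ≤ ((p + 1 : ℕ) : ℝ) := by
      push_cast
      linarith
    exact_mod_cast h1
  have hoff := off_set hC hp2 F S hF0 z hzone hzhalf hpar hNz hzm' hzL
  have hoffR : ((p : ℝ) - 1) * z - (m - 1) * (z : ℝ) ^ 2 ≤
      ∑ b ∈ Sᶜ, tr (fun a => (F a : ℝ)) b ^ 2 := by
    have h1 : (((p : ℤ) - 1) * z - ((S.card : ℤ) - 1) * (z : ℤ) ^ 2 : ℤ) ≤
      ∑ b ∈ Sᶜ, ta F b ^ 2 := hoff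
    have h2 := (Int.cast_le (R := ℝ)).2 h1
    push_cast at h2
    have h3 : ∀ b, ((ta F b : ℤ) : ℝ) = tr (fun a => (F a : ℝ)) b := by
      intro b
      unfold ta tr
      push_cast
      rfl
    rw [hmdef]
    refine h2.trans (le_of_eq (Finset.sum_congr rfl fun b _ => ?_))
    rw [h3]
  refine le_trans ?_ hoffR
  have h1 : (p : ℝ) ^ 2 / (64 * m) = p * z1 / 2 := by
    rw [hz1]; field_simp; norm_num
  rw [h1]
  have hz0 : (0 : ℝ) ≤ z := Nat.cast_nonneg _
  have h2 : (z : ℝ) ^ 2 ≤ (4 / 3 * z1) ^ 2 := pow_le_pow_left₀ hz0 (by linarith) 2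
  have h3 : (m - 1) * (z : ℝ) ^ 2 ≤ m * (4 / 3 * z1) ^ 2 := by
    have : (m - 1) * (z : ℝ) ^ 2 ≤ m * (z : ℝ) ^ 2 :=
      mul_le_mul_of_nonneg_right (by linarith) (sq_nonneg _)
    exact this.trans (mul_le_mul_of_nonneg_left h2 hm0)
  have h4 : m * (4 / 3 * z1) ^ 2 = 16 / 9 * (m * z1) * z1 := by ring
  have h5 : m * z1 = p / 32 := by linarith
  rw [h4, h5] at h3
  have h6 : (2 / 3) * z1 ≤ z := by linarith
  have hp100 : (100 : ℝ) ≤ p := by nlinarith
  have h7 : (99 / 100 * p) * ((2 / 3) * z1) ≤ ((p : ℝ) - 1) * z := by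
    apply mul_le_mul (by linarith) h6 (by linarith) (by linarith)
  nlinarith

/-- the scaled truncated vector -/
theorem tr_scaled (hp2 : p ≠ 2) (S : Finset (ZMod p)) (v vb y : ZMod p → ℝ) (M m V E : ℝ)
    (hm : 0 < m) (hV : 0 < V) (hMV : V ≤ 2 * (m * M ^ 2))
    (hy : ∀ a, M * y a = v a - vb a) (hvC : ∑ b ∈ Sᶜ, tr v b ^ 2 ≤ 2 * p * E)
    (hvb : ∑ a, vb a ^ 2 ≤ 8 * E) :
    ∑ b ∈ Sᶜ, tr y b ^ 2 ≤ 40 * (p * m) * (E / V) := by
  have hp0 : (0 : ℝ) < p := by exact_mod_cast hp.out.pos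
  have htry : ∀ b, M * tr y b = tr v b - tr vb b := by
    intro b
    unfold tr
    rw [Finset.mul_sum, ← Finset.sum_sub_distrib]
    refine Finset.sum_congr rfl fun a _ => ?_
    rw [← mul_assoc, hy]; ring
  have h1 : ∑ b ∈ Sᶜ, tr vb b ^ 2 ≤ 8 * p * E := by
    refine (parseval_le hp2 vb _).trans ?_
    nlinarith
  have h2 : M ^ 2 * ∑ b ∈ Sᶜ, tr y b ^ 2 ≤ 20 * p * E := by
    rw [Finset.mul_sum]
    have h3 : ∀ b ∈ (Sᶜ : Finset (ZMod p)), M ^ 2 * tr y b ^ 2 ≤
        2 * tr v b ^ 2 + 2 * tr vb b ^ 2 := by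
      intro b _
      have : M ^ 2 * tr y b ^ 2 = (tr v b - tr vb b) ^ 2 := by
        rw [← htry b]; ring
      rw [this]
      nlinarith [sq_nonneg (tr v b + tr vb b)]
    refine (Finset.sum_le_sum h3).trans ?_
    rw [Finset.sum_add_distrib, ← Finset.mul_sum, ← Finset.mul_sum]
    linarith
  have hA : 0 ≤ ∑ b ∈ Sᶜ, tr y b ^ 2 := Finset.sum_nonneg fun _ _ => sq_nonneg _
  have h5 : V / (2 * m) ≤ M ^ 2 := by
    rw [div_le_iff₀ (by positivity)]
    nlinarith
  have h6 : V / (2 * m) * ∑ b ∈ Sᶜ, tr y b ^ 2 ≤ 20 * p * E :=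
    (mul_le_mul_of_nonneg_right h5 hA).trans h2
  have h7 : 40 * (p * m) * (E / V) = (20 * p * E) / (V / (2 * m)) := by
    field_simp
    ring
  rw [h7, le_div_iff₀ (by positivity)]
  linarith

/-- the rounded vector -/
theorem tr_round (hp2 : p ≠ 2) (S : Finset (ZMod p)) (F : ZMod p → ℤ) (y : ZMod p → ℝ)
    (s Q m E V : ℝ) (he2 : ∑ a, ((F a : ℝ) - s * y a) ^ 2 ≤ m / Q ^ 2)
    (h4 : ∑ b ∈ Sᶜ, tr y b ^ 2 ≤ 40 * (p * m) * (E / V)) :
    ∑ b ∈ Sᶜ, tr (fun a => (F a : ℝ)) b ^ 2 ≤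
      80 * s ^ 2 * (p * m) * (E / V) + 2 * (p * m) / Q ^ 2 := by
  have hp0 : (0 : ℝ) < p := by exact_mod_cast hp.out.pos
  let e : ZMod p → ℝ := fun a => (F a : ℝ) - s * y a
  have htrF : ∀ b, tr (fun a => (F a : ℝ)) b = s * tr y b + tr e b := by
    intro b
    unfold tr
    rw [Finset.mul_sum, ← Finset.sum_add_distrib]
    refine Finset.sum_congr rfl fun a _ => ?_
    show (F a : ℝ) * _ = s * (y a * _) + ((F a : ℝ) - s * y a) * _
    ring
  have h8 : ∑ b ∈ Sᶜ, tr e b ^ 2 ≤ p * (m / Q ^ 2) :=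
    (parseval_le hp2 e _).trans (mul_le_mul_of_nonneg_left he2 hp0.le)
  have h9 : ∑ b ∈ Sᶜ, tr (fun a => (F a : ℝ)) b ^ 2 ≤
      2 * s ^ 2 * ∑ b ∈ Sᶜ, tr y b ^ 2 + 2 * ∑ b ∈ Sᶜ, tr e b ^ 2 := by
    rw [Finset.mul_sum, Finset.mul_sum, ← Finset.sum_add_distrib]
    refine Finset.sum_le_sum fun b _ => ?_
    rw [htrF b]
    nlinarith [sq_nonneg (s * tr y b - tr e b)]
  have h10 : 2 * s ^ 2 * ∑ b ∈ Sᶜ, tr y b ^ 2 ≤ 2 * s ^ 2 * (40 * (p * m) * (E / V)) :=
    mul_le_mul_of_nonneg_left h4 (by positivity)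
  have h11 : 2 * (p * m) / Q ^ 2 = 2 * (p * (m / Q ^ 2)) := by ring
  rw [h11]
  linarith

/-- **few values**, real form -/
theorem few_real (hC : Core p) (hp2 : p ≠ 2) (S : Finset (ZMod p)) (v : ZMod p → ℝ)
    (hv : ∀ a, a ∉ S → v a = 0) (K : ℝ) (hK : 1 ≤ K) (k : ℕ)
    (hk : ((S.image fun a => |v a|).erase 0).card ≤ k) (hm : (S.card : ℝ) ≤ K * Real.sqrt p)
    (hX : 6 * (17 * K) ^ k ≤ Real.sqrt p) :
    (∑ a ∈ S, v a ^ 2) / (6 * (17 * K) ^ k) ^ 2 ≤
      ∑ a ∈ S, v a ^ 2 - |qR S v| / Real.sqrt p := by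
  classical
  set r := Real.sqrt p with hr
  have hr0 : 0 < r := Real.sqrt_pos.2 (by exact_mod_cast hp.out.pos)
  have hrr : r * r = p := Real.mul_self_sqrt (Nat.cast_nonneg _)
  have hp0 : (0 : ℝ) < p := by exact_mod_cast hp.out.pos
  set V := ∑ a ∈ S, v a ^ 2 with hVdef
  have hV0 : 0 ≤ V := Finset.sum_nonneg fun a _ => sq_nonneg _
  set X := (17 * K) ^ k with hXdef
  have hX1 : 1 ≤ X := one_le_pow₀ (by linarith)
  set m : ℝ := (S.card : ℝ) with hmdef
  have hm0 : 0 ≤ m := Nat.cast_nonneg _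
  set E := V - |qR S v| / r with hE
  have hger := gersh_real S v
  rw [← hmdef, ← hVdef] at hger
  have h36 : (36 : ℝ) ≤ (6 * X) ^ 2 := by nlinarith
  rcases le_or_gt (m - 1) (9 / 10 * r) with h | h
  · -- small sets
    have h2 : |qR S v| / r ≤ 9 / 10 * V := by
      rw [div_le_iff₀ hr0]
      calc |qR S v| ≤ (m - 1) * V := hger
        _ ≤ (9 / 10 * r) * V := mul_le_mul_of_nonneg_right h hV0
        _ = 9 / 10 * V * r := by ring
    have h3 : V / (6 * X) ^ 2 ≤ V / 36 := div_le_div_of_nonneg_left hV0 (by norm_num) h36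
    rw [hE]
    linarith
  -- large sets
  by_contra hcon
  have hEV := not_le.1 hcon
  have hVpos : 0 < V := by
    rcases hV0.lt_or_eq with h' | h'
    · exact h'
    · exfalso
      have hq0 : |qR S v| ≤ 0 := by rw [← h'] at hger; simpa using hger
      rw [hE, ← h'] at hEV
      have : |qR S v| = 0 := le_antisymm hq0 (abs_nonneg _)
      rw [this] at hEV
      simp at hEV
  have hk1 : 1 ≤ k := by
    rcases Nat.eq_zero_or_pos k with h0 | h0
    · exfalso
      rw [h0] at hk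
      have hemp : (S.image fun a => |v a|).erase 0 = ∅ := Finset.card_eq_zero.1 (by omega)
      have : V = 0 := by
        apply Finset.sum_eq_zero
        intro a ha
        by_contra hne
        have hne' : |v a| ≠ 0 := by
          intro h1
          apply hne
          rw [abs_eq_zero.1 h1]; norm_num
        have : |v a| ∈ (S.image fun a => |v a|).erase 0 :=
          Finset.mem_erase.2 ⟨hne', Finset.mem_image_of_mem _ ha⟩
        rw [hemp] at this
        exact absurd this (Finset.notMem_empty _)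
      linarith
    · exact h0
  have hX17 : 17 * K ≤ X := by
    rw [hXdef]
    calc 17 * K = (17 * K) ^ 1 := (pow_one _).symm
      _ ≤ (17 * K) ^ k := pow_le_pow_right₀ (by linarith) hk1
  have hr102 : 102 ≤ r := by nlinarith
  have hmr : m ≤ K * r := hm
  have hmp : 102 * m ≤ p := by
    rw [← hrr]
    calc 102 * m ≤ 102 * (K * r) := by linarith
      _ = (6 * (17 * K)) * r := by ring
      _ ≤ (6 * X) * r := by
        apply mul_le_mul_of_nonneg_right _ hr0.le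
        linarith
      _ ≤ r * r := mul_le_mul_of_nonneg_right hX hr0.le
  have hm1 : 0 < m := by linarith
  have hmK : m ^ 2 ≤ K ^ 2 * p := by
    calc m ^ 2 ≤ (K * r) ^ 2 := pow_le_pow_left₀ hm0 hmr 2
      _ = K ^ 2 * (r * r) := by ring
      _ = K ^ 2 * p := by rw [hrr]
  have hE0 : E ≤ V / 36 := by
    have h3 : V / (6 * X) ^ 2 ≤ V / 36 := div_le_div_of_nonneg_left hV0 (by norm_num) h36
    linarith
  obtain ⟨σ, hσ, hdef⟩ := defect hp2 S v hv
  rw [← hr, ← hVdef, ← hE] at hdef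
  have hdefS : ∑ b ∈ S, (tr v b - σ * r * v b) ^ 2 ≤ 2 * p * E := by
    have : 0 ≤ ∑ b ∈ Sᶜ, tr v b ^ 2 := Finset.sum_nonneg fun _ _ => sq_nonneg _
    linarith
  have hdefC : ∑ b ∈ Sᶜ, tr v b ^ 2 ≤ 2 * p * E := by
    have : 0 ≤ ∑ b ∈ S, (tr v b - σ * r * v b) ^ 2 := Finset.sum_nonneg fun _ _ => sq_nonneg _
    linarith
  -- the big entries
  set Bg := S.filter (fun b => 4 * m * V ≤ p * v b ^ 2) with hBg
  have hbig : ∀ b ∈ Bg, p * v b ^ 2 / 4 ≤ (tr v b - σ * r * v b) ^ 2 := by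
    intro b hb
    have hb2 : 4 * m * V ≤ p * v b ^ 2 := (Finset.mem_filter.1 hb).2
    have htr := tr_sq_le S v hv b
    rw [← hmdef, ← hVdef] at htr
    set w := σ * r * v b with hw
    have hw2 : w ^ 2 = p * v b ^ 2 := by
      calc w ^ 2 = (σ * σ) * (r * r) * v b ^ 2 := by rw [hw]; ring
        _ = p * v b ^ 2 := by rw [hσ, hrr]; ring
    have h4t : 4 * tr v b ^ 2 ≤ w ^ 2 := by rw [hw2]; linarith
    have ht : |tr v b| ≤ |w| / 2 := by
      apply abs_le_of_sq_le_sq' ?_ (by positivity) |> abs_le.2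
      rw [div_pow, sq_abs]
      linarith
    rw [← hw2]
    have e1 : tr v b * w ≤ |tr v b| * |w| := by
      rw [← abs_mul]; exact le_abs_self _
    have e2 : |tr v b| ^ 2 = tr v b ^ 2 := sq_abs _
    have e3 : |w| ^ 2 = w ^ 2 := sq_abs _
    nlinarith [mul_nonneg (sub_nonneg.2 ht) (by nlinarith [abs_nonneg (tr v b), abs_nonneg w] :
      0 ≤ 3 * |w| / 2 - |tr v b|)]
  have hBgmass : ∑ b ∈ Bg, v b ^ 2 ≤ 8 * E := by
    have h1 : ∑ b ∈ Bg, p * v b ^ 2 / 4 ≤ 2 * p * E := by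
      refine (Finset.sum_le_sum hbig).trans (le_trans ?_ hdefS)
      exact Finset.sum_le_sum_of_subset_of_nonneg (Finset.filter_subset _ _)
        fun _ _ _ => sq_nonneg _
    have h2 : ∑ b ∈ Bg, p * v b ^ 2 / 4 = p / 4 * ∑ b ∈ Bg, v b ^ 2 := by
      rw [Finset.mul_sum]
      exact Finset.sum_congr rfl fun _ _ => by ring
    rw [h2] at h1
    have h3 : p * (∑ b ∈ Bg, v b ^ 2) ≤ p * (8 * E) := by linarith
    exact le_of_mul_le_mul_left h3 hp0
  set R := S.filter (fun b => ¬ (4 * m * V ≤ p * v b ^ 2)) with hR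
  have hsplitR : ∑ b ∈ Bg, v b ^ 2 + ∑ b ∈ R, v b ^ 2 = V :=
    Finset.sum_filter_add_sum_filter_not S _ _
  set V' := ∑ b ∈ R, v b ^ 2 with hV'
  have hV'2 : V / 2 ≤ V' := by linarith
  have hV'pos : 0 < V' := by linarith
  have hRne : R.Nonempty := by
    rw [Finset.nonempty_iff_ne_empty]
    intro h0
    rw [hV', h0, Finset.sum_empty] at hV'pos
    exact lt_irrefl _ hV'pos
  obtain ⟨a0, ha0, hmax⟩ := R.exists_max_image (fun a => |v a|) hRne
  set M := |v a0| with hM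
  have hM0 : 0 ≤ M := abs_nonneg _
  have hV'M : V' ≤ m * M ^ 2 := by
    have h1 : V' ≤ ∑ b ∈ R, M ^ 2 := by
      refine Finset.sum_le_sum fun b hb => ?_
      rw [← sq_abs]
      exact pow_le_pow_left₀ (abs_nonneg _) (hmax b hb) 2
    rw [Finset.sum_const, nsmul_eq_mul] at h1
    refine h1.trans ?_
    apply mul_le_mul_of_nonneg_right _ (sq_nonneg _)
    rw [hmdef]
    exact_mod_cast Finset.card_le_card (Finset.filter_subset _ _)
  have hMpos : 0 < M := by
    rcases hM0.lt_or_eq with h' | h'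
    · exact h'
    · exfalso
      rw [← h'] at hV'M
      norm_num at hV'M
      linarith
  have hMup : p * M ^ 2 < 4 * m * V := by
    have := (Finset.mem_filter.1 ha0).2
    rw [hM, sq_abs]
    exact not_le.1 this
  -- the scaled vector
  let y : ZMod p → ℝ := fun a => if a ∈ R then v a / M else 0
  have hyR : ∀ a ∈ R, y a = v a / M := fun a ha => if_pos ha
  have hy0 : ∀ a, a ∉ R → y a = 0 := fun a ha => if_neg ha
  have hRS : R ⊆ S := Finset.filter_subset _ _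
  have hyS : ∀ a, a ∉ S → y a = 0 := fun a ha => hy0 a fun h' => ha (hRS h')
  -- Dirichlet
  set Q := ⌈16 * K⌉₊ with hQ
  have hQ16 : 16 * K ≤ Q := Nat.le_ceil _
  have hQ17 : (Q : ℝ) ≤ 17 * K := by
    have := Nat.ceil_lt_add_one (show 0 ≤ 16 * K by linarith)
    rw [← hQ] at this
    linarith
  have hQ0 : (0 : ℝ) < Q := by linarith
  have hQ1 : 1 ≤ Q := by
    have : (0 : ℝ) < Q := hQ0
    exact_mod_cast this
  set L := ((S.image fun a => |v a|).erase 0) with hLdef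
  have hML : M ∈ L := Finset.mem_erase.2 ⟨hMpos.ne', Finset.mem_image_of_mem _ (hRS ha0)⟩
  set T := (L.erase M).image (fun t => t / M) with hT
  have hTcard : T.card ≤ k - 1 := by
    refine Finset.card_image_le.trans ?_
    rw [Finset.card_erase_of_mem hML]
    omega
  obtain ⟨s, hs1, hsQ, hsT⟩ := dirichlet_sim T Q hQ1
  have hs1' : (1 : ℝ) ≤ s := by exact_mod_cast hs1
  have hsQk : (s : ℝ) ≤ (17 * K) ^ (k - 1) := by
    have h1 : (s : ℝ) ≤ (Q : ℝ) ^ T.card := by exact_mod_cast hsQ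
    have h2 : (Q : ℝ) ^ T.card ≤ (Q : ℝ) ^ (k - 1) :=
      pow_le_pow_right₀ (by exact_mod_cast hQ1) hTcard
    have h3 : (Q : ℝ) ^ (k - 1) ≤ (17 * K) ^ (k - 1) := pow_le_pow_left₀ hQ0.le hQ17 _
    linarith
  have hsX : 17 * K * s ≤ X := by
    calc 17 * K * s ≤ 17 * K * (17 * K) ^ (k - 1) :=
          mul_le_mul_of_nonneg_left hsQk (by linarith)
      _ = X := by
        rw [hXdef, ← pow_succ']
        congr 1
        omega
  let F : ZMod p → ℤ := fun a => round ((s : ℝ) * y a)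
  have hF0 : ∀ a, a ∉ S → F a = 0 := by
    intro a ha
    show round ((s : ℝ) * y a) = 0
    rw [hyS a ha, mul_zero, round_zero]
  have hQinv : (0 : ℝ) ≤ 1 / Q := by positivity
  have habsQ : ∀ t : ℝ, |(s : ℝ) * t - round ((s : ℝ) * t)| ≤ 1 / Q →
      ∀ u : ℝ, |u| = t → |(s : ℝ) * u - round ((s : ℝ) * u)| ≤ 1 / Q := by
    intro t ht u hu
    rcases abs_cases u with h' | h'
    · rw [← h'.1, hu]; exact ht
    · have hut : u = -t := by linarith [h'.1]
      refine (round_le _ (-(round ((s : ℝ) * t)))).trans ?_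
      have e1 : (s : ℝ) * u - ((-(round ((s : ℝ) * t)) : ℤ) : ℝ) =
          -((s : ℝ) * t - round ((s : ℝ) * t)) := by
        rw [hut]; push_cast; ring
      rw [e1, abs_neg]
      exact ht
  have herr : ∀ a, |(s : ℝ) * y a - F a| ≤ 1 / Q := by
    intro a
    by_cases ha : a ∈ R
    · by_cases hva : v a = 0
      · have : y a = 0 := by rw [hyR a ha, hva, zero_div]
        show |(s : ℝ) * y a - round ((s : ℝ) * y a)| ≤ 1 / Q
        rw [this, mul_zero, round_zero]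
        simpa using hQinv
      · by_cases hvM : |v a| = M
        · apply habsQ 1
          · have : round ((s : ℝ) * 1) = (s : ℤ) := by
              rw [mul_one]; exact round_natCast s
            rw [this]
            simpa using hQinv
          · rw [hyR a ha, abs_div, hvM, abs_of_pos hMpos, div_self hMpos.ne']
        · apply habsQ (|v a| / M)
          · apply hsT
            refine Finset.mem_image_of_mem _ (Finset.mem_erase.2 ⟨hvM, ?_⟩)
            exact Finset.mem_erase.2 ⟨abs_ne_zero.2 hva, Finset.mem_image_of_mem _ (hRS ha)⟩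
          · rw [hyR a ha, abs_div, abs_of_pos hMpos]
    · show |(s : ℝ) * y a - round ((s : ℝ) * y a)| ≤ 1 / Q
      rw [hy0 a ha, mul_zero, round_zero]
      simpa using hQinv
  let e : ZMod p → ℝ := fun a => (F a : ℝ) - (s : ℝ) * y a
  have heS : ∀ a, a ∉ S → e a = 0 := by
    intro a ha
    show (F a : ℝ) - (s : ℝ) * y a = 0
    rw [hF0 a ha, hyS a ha]; simp
  have he2 : ∑ a, e a ^ 2 ≤ m / Q ^ 2 := by
    rw [sum_univ_eq S e heS]
    have h1 : ∑ a ∈ S, e a ^ 2 ≤ ∑ a ∈ S, (1 / (Q : ℝ)) ^ 2 := by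
      refine Finset.sum_le_sum fun a _ => ?_
      rw [← sq_abs]
      apply pow_le_pow_left₀ (abs_nonneg _)
      rw [show e a = -((s : ℝ) * y a - F a) by show (F a : ℝ) - (s : ℝ) * y a = _; ring, abs_neg]
      exact herr a
    rw [Finset.sum_const, nsmul_eq_mul, ← hmdef] at h1
    calc ∑ a ∈ S, e a ^ 2 ≤ m * (1 / (Q : ℝ)) ^ 2 := h1
      _ = m / Q ^ 2 := by rw [div_pow, one_pow]; ring
  have hysq : ∑ a ∈ S, y a ^ 2 = V' / M ^ 2 := by
    rw [hV', Finset.sum_div]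
    rw [← Finset.sum_subset hRS (f := fun a => y a ^ 2)]
    · refine Finset.sum_congr rfl fun a ha => ?_
      rw [hyR a ha, div_pow]
    · intro a _ ha
      rw [hy0 a ha]; norm_num
  have hyle : ∀ a, |y a| ≤ 1 := by
    intro a
    by_cases ha : a ∈ R
    · rw [hyR a ha, abs_div, abs_of_pos hMpos, div_le_one hMpos]
      exact hmax a ha
    · rw [hy0 a ha]; simp
  -- the norm of F
  have hm2P : m / Q ^ 2 ≤ p / (256 * m) := by
    rw [div_le_div_iff₀ (by positivity) (by positivity)]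
    have h1 : (16 * K) ^ 2 ≤ (Q : ℝ) ^ 2 := pow_le_pow_left₀ (by linarith) hQ16 2
    have h2 : 256 * (m ^ 2) ≤ 256 * (K ^ 2 * p) := by linarith
    have h3 : p * (16 * K) ^ 2 ≤ p * (Q : ℝ) ^ 2 := mul_le_mul_of_nonneg_left h1 hp0.le
    nlinarith
  have hFl2 : 15 / 256 * (p / m) ≤ (l2 F : ℝ) := by
    have h1 : (l2 F : ℝ) = ∑ a, (F a : ℝ) ^ 2 := by
      unfold l2; push_cast; rfl
    rw [h1]
    have h2 : ∑ a ∈ S, ((s : ℝ) ^ 2 * y a ^ 2 / 2 - e a ^ 2) ≤ ∑ a, (F a : ℝ) ^ 2 := by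
      refine le_trans (Finset.sum_le_sum (g := fun a => (F a : ℝ) ^ 2) fun a _ => ?_)
        (Finset.sum_le_univ_sum_of_nonneg fun _ => sq_nonneg _)
      have hFa : (F a : ℝ) = s * y a + e a := by
        show (F a : ℝ) = s * y a + ((F a : ℝ) - (s : ℝ) * y a)
        ring
      rw [hFa]
      nlinarith [sq_nonneg ((s : ℝ) * y a + 2 * e a)]
    refine le_trans ?_ h2
    rw [Finset.sum_sub_distrib]
    have h3 : ∑ a ∈ S, (s : ℝ) ^ 2 * y a ^ 2 / 2 = (s : ℝ) ^ 2 / 2 * (V' / M ^ 2) := by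
      rw [← hysq, Finset.mul_sum]
      exact Finset.sum_congr rfl fun _ _ => by ring
    rw [h3]
    have h4 : p / (8 * m) ≤ V' / M ^ 2 := by
      rw [div_le_div_iff₀ (by positivity) (by positivity)]
      nlinarith
    have h5 : (1 : ℝ) ≤ (s : ℝ) ^ 2 := one_le_pow₀ hs1'
    have h6 : 1 / 2 * (p / (8 * m)) ≤ (s : ℝ) ^ 2 / 2 * (V' / M ^ 2) := by
      have h7 : 0 ≤ V' / M ^ 2 := by positivity
      nlinarith
    have h8 : ∑ a ∈ S, e a ^ 2 ≤ m / Q ^ 2 := by
      rw [← sum_univ_eq S e heS]; exact he2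
    have h9 : 1 / 2 * (p / (8 * m)) = 1 / 16 * (p / m) := by field_simp; norm_num
    have h10 : p / (256 * m) = 1 / 256 * ((p : ℝ) / m) := by field_simp
    linarith
  have hFl1 : ((l1 F : ℕ) : ℝ) ≤ (s + 1) * m := by
    have h1 : ((l1 F : ℕ) : ℝ) = ∑ a ∈ S, |(F a : ℝ)| := by
      unfold l1
      push_cast
      rw [← Finset.sum_subset (Finset.subset_univ S)]
      · refine Finset.sum_congr rfl fun a _ => ?_
        rw [Nat.cast_natAbs, Int.cast_abs]
      · intro a _ ha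
        rw [hF0 a ha]; simp
    rw [h1]
    have h2 : ∑ a ∈ S, |(F a : ℝ)| ≤ ∑ a ∈ S, ((s : ℝ) + 1) := by
      refine Finset.sum_le_sum fun a _ => ?_
      have h3 := herr a
      have h4 : (1 : ℝ) / Q ≤ 1 := by
        rw [div_le_one hQ0]; linarith
      have h5 : |(s : ℝ) * y a| ≤ s := by
        rw [abs_mul, abs_of_nonneg (by linarith : (0 : ℝ) ≤ s)]
        calc (s : ℝ) * |y a| ≤ s * 1 := mul_le_mul_of_nonneg_left (hyle a) (by linarith)
          _ = s := mul_one _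
      have h6 : |(F a : ℝ)| ≤ |(s : ℝ) * y a| + |(s : ℝ) * y a - F a| := by
        have := abs_sub_abs_le_abs_sub ((F a : ℝ)) ((s : ℝ) * y a)
        rw [abs_sub_comm] at this
        linarith
      linarith
    rw [Finset.sum_const, nsmul_eq_mul, ← hmdef] at h2
    linarith
  have hFl1' : ((l1 F : ℕ) : ℝ) ≤ p / 2 := by
    refine hFl1.trans ?_
    have h3 : ((s : ℝ) + 1) * m ≤ 2 * s * (K * r) := by
      have h4 : ((s : ℝ) + 1) * m ≤ (2 * s) * m :=
        mul_le_mul_of_nonneg_right (by linarith) hm0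
      exact h4.trans (mul_le_mul_of_nonneg_left hmr (by linarith))
    have h5 : 2 * s * (K * r) = 2 / 17 * (17 * K * s) * r := by ring
    have h6 : 17 * K * s ≤ r / 6 := by linarith
    have h7 : 2 / 17 * (17 * K * s) * r ≤ 2 / 17 * (r / 6) * r :=
      mul_le_mul_of_nonneg_right (mul_le_mul_of_nonneg_left h6 (by norm_num)) hr0.le
    have h8 : 2 / 17 * (r / 6) * r = 1 / 51 * (r * r) := by ring
    rw [h5] at h3
    rw [h8, hrr] at h7
    linarith
  have hlow := low_part hC hp2 F S hF0 hmp h hr102 hFl2 hFl1'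
  rw [← hmdef] at hlow
  -- the upper bound
  have hup : ∑ b ∈ Sᶜ, tr (fun a => (F a : ℝ)) b ^ 2 ≤
      80 * (s : ℝ) ^ 2 * (p * m) * (E / V) + 2 * (p * m) / (Q : ℝ) ^ 2 := by
    let vb : ZMod p → ℝ := fun a => if a ∈ Bg then v a else 0
    have hvb : ∑ a, vb a ^ 2 = ∑ b ∈ Bg, v b ^ 2 := by
      rw [← Finset.sum_subset (Finset.subset_univ Bg) (f := fun a => vb a ^ 2)]
      · exact Finset.sum_congr rfl fun a ha => by
          show (if a ∈ Bg then v a else 0) ^ 2 = _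
          rw [if_pos ha]
      · intro a _ ha
        show (if a ∈ Bg then v a else 0) ^ 2 = 0
        rw [if_neg ha]; norm_num
    have hy_eq : ∀ a, M * y a = v a - vb a := by
      intro a
      by_cases haS : a ∈ S
      · by_cases hb : 4 * m * V ≤ p * v a ^ 2
        · have h1 : a ∈ Bg := Finset.mem_filter.2 ⟨haS, hb⟩
          have h2 : a ∉ R := fun h' => (Finset.mem_filter.1 h').2 hb
          show M * (if a ∈ R then v a / M else 0) = v a - (if a ∈ Bg then v a else 0)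
          rw [if_neg h2, if_pos h1]; ring
        · have h1 : a ∉ Bg := fun h' => hb (Finset.mem_filter.1 h').2
          have h2 : a ∈ R := Finset.mem_filter.2 ⟨haS, hb⟩
          show M * (if a ∈ R then v a / M else 0) = v a - (if a ∈ Bg then v a else 0)
          rw [if_pos h2, if_neg h1, mul_div_cancel₀ _ hMpos.ne', sub_zero]
      · have h1 : a ∉ Bg := fun h' => haS (Finset.mem_filter.1 h').1
        have h2 : a ∉ R := fun h' => haS (Finset.mem_filter.1 h').1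
        show M * (if a ∈ R then v a / M else 0) = v a - (if a ∈ Bg then v a else 0)
        rw [if_neg h2, if_neg h1, hv a haS]; ring
    exact tr_round hp2 S F y s Q m E V he2
      (tr_scaled hp2 S v vb y M m V E hm1 hVpos (by linarith) hy_eq hdefC
        (by rw [hvb]; exact hBgmass))
  exact numeric_end p m K V E s Q X hp0 hm1 hK hVpos (by linarith) hQ0 hmK hQ16 (by linarith) hsX
    hEV (hlow.trans hup)

end Pool.Agent.Paley62
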