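import Pool.Agent.Work.MP_9d0e17_co.FlatFrame
import Pool.Agent.Work.CharSums71.Sums

set_option autoImplicit false

/-!
Reduction of the norm `‖Φ v‖²` for complex `v` to the real quadratic form of the Paley matrix.
-/

open Complex ComplexConjugate

namespace Pool.Agent.Paley62

open Pool.Agent.Paley67

variable {p : ℕ} [hp : Fact p.Prime]

/-- the real quadratic form of the Paley matrix -/
noncomputable def qR (S : Finset (ZMod p)) (y : ZMod p → ℝ) : ℝ :=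
  ∑ b ∈ S, ∑ a ∈ S, y b * y a * ((chi p (b - a) : ℤ) : ℝ)

theorem cReal (x : ℝ) : conj (x : ℂ) = (x : ℂ) := Complex.conj_ofReal x

theorem nrm_real (hp4 : p % 4 = 1) : ∃ σ : ℤ, (σ = 1 ∨ σ = -1) ∧
    ∀ (S : Finset (ZMod p)) (t : ℝ) (x : ZMod p → ℝ),
    nrm S (t : ℂ) (fun a => (x a : ℂ)) = t ^ 2 + ∑ a ∈ S, x a ^ 2 +
      (2 * t * (∑ a ∈ S, x a) + σ * qR S x) / Real.sqrt p := by
  obtain ⟨σ, hσ, hG⟩ := Gs_real (p := p) hp4
  refine ⟨σ, hσ, ?_⟩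
  intro S t x
  have hp2 : p ≠ 2 := by omega
  have hp0 : (p : ℂ) ≠ 0 := by exact_mod_cast hp.out.ne_zero
  have hs : (Real.sqrt p : ℂ) ≠ 0 := by
    rw [Ne, Complex.ofReal_eq_zero, Real.sqrt_eq_zero (Nat.cast_nonneg _)]
    exact_mod_cast hp.out.ne_zero
  have hs2 : (Real.sqrt p : ℂ) ^ 2 = p := by
    rw [← Complex.ofReal_pow, Real.sq_sqrt (Nat.cast_nonneg _)]; simp
  have h1 := nrm_eq hp2 S (t : ℂ) (fun a => (x a : ℂ))
  have h2 : hat S (fun a => (x a : ℂ)) 0 = ((∑ a ∈ S, x a : ℝ) : ℂ) := by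
    unfold hat
    push_cast
    refine Finset.sum_congr rfl fun a _ => ?_
    rw [zero_mul, AddChar.map_zero_eq_one, one_mul]
  have h3 : qC S (fun a => (x a : ℂ)) = (qR S x : ℂ) := by
    unfold qC qR
    push_cast
    refine Finset.sum_congr rfl fun a _ => Finset.sum_congr rfl fun b _ => ?_
    rw [cReal]
    ring
  have hsq : ∀ n : ℝ, ((‖(n : ℂ)‖ : ℝ) : ℂ) ^ 2 = (n : ℂ) ^ 2 := by
    intro n
    rw [← Complex.mul_conj', cReal, sq]
  have h4 : ∑ a ∈ S, ((‖((x a : ℝ) : ℂ)‖ : ℝ) : ℂ) ^ 2 = ((∑ a ∈ S, x a ^ 2 : ℝ) : ℂ) := by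
    push_cast
    exact Finset.sum_congr rfl fun a _ => hsq _
  rw [h2, h3, h4, hsq, hG, cReal, cReal] at h1
  apply Complex.ofReal_injective
  rw [h1]
  push_cast
  rw [← hs2]
  field_simp
  ring

theorem nrm_split (hp4 : p % 4 = 1) (S : Finset (ZMod p)) (w : ℂ) (x : ZMod p → ℂ) :
    nrm S w x = nrm S (w.re : ℂ) (fun a => ((x a).re : ℂ)) +
      nrm S (w.im : ℂ) (fun a => ((x a).im : ℂ)) := by
  obtain ⟨σ, hσ, hG⟩ := Gs_real (p := p) hp4
  have hp2 : p ≠ 2 := by omega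
  have h1 := nrm_eq hp2 S w x
  have h2 := nrm_eq hp2 S (w.re : ℂ) (fun a => ((x a).re : ℂ))
  have h3 := nrm_eq hp2 S (w.im : ℂ) (fun a => ((x a).im : ℂ))
  have hat0 : ∀ y : ZMod p → ℂ, hat S y 0 = ∑ a ∈ S, y a := by
    intro y
    unfold hat
    refine Finset.sum_congr rfl fun a _ => ?_
    rw [zero_mul, AddChar.map_zero_eq_one, one_mul]
  have hsq : ∀ n : ℝ, ((‖(n : ℂ)‖ : ℝ) : ℂ) ^ 2 = (n : ℂ) ^ 2 := by
    intro n
    rw [← Complex.mul_conj', cReal, sq]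
  have hnsq : ∀ c : ℂ, ((‖c‖ : ℝ) : ℂ) ^ 2 = (c.re : ℂ) ^ 2 + (c.im : ℂ) ^ 2 := by
    intro c
    rw [← Complex.mul_conj', Complex.mul_conj, Complex.normSq_apply]
    push_cast; ring
  have hq : qC S x = qC S (fun a => ((x a).re : ℂ)) + qC S (fun a => ((x a).im : ℂ)) := by
    have h2 : ∑ a ∈ S, ∑ b ∈ S, (chi p (a - b) : ℝ) * ((x a).im * (x b).re) =
        ∑ a ∈ S, ∑ b ∈ S, (chi p (a - b) : ℝ) * ((x a).re * (x b).im) := by
      rw [Finset.sum_comm]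
      refine Finset.sum_congr rfl fun a _ => Finset.sum_congr rfl fun b _ => ?_
      rw [chi_sub_comm hp4 b a]; ring
    have h2' : ∑ a ∈ S, ∑ b ∈ S, ((chi p (a - b) : ℤ) : ℂ) * (((x a).im : ℂ) * ((x b).re : ℂ)) =
        ∑ a ∈ S, ∑ b ∈ S, ((chi p (a - b) : ℤ) : ℂ) * (((x a).re : ℂ) * ((x b).im : ℂ)) := by
      have := congrArg (fun r : ℝ => (r : ℂ)) h2
      push_cast at this
      exact this
    have h3 : ∀ a b : ZMod p, ((chi p (a - b) : ℤ) : ℂ) * (x a * conj (x b)) =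
        ((chi p (a - b) : ℤ) : ℂ) * (((x a).re : ℂ) * conj ((x b).re : ℂ)) +
        ((chi p (a - b) : ℤ) : ℂ) * (((x a).im : ℂ) * conj ((x b).im : ℂ)) +
        I * (((chi p (a - b) : ℤ) : ℂ) * (((x a).im : ℂ) * ((x b).re : ℂ))) -
        I * (((chi p (a - b) : ℤ) : ℂ) * (((x a).re : ℂ) * ((x b).im : ℂ))) := by
      intro a b
      rw [cReal, cReal]
      have e1 : x a = ((x a).re : ℂ) + ((x a).im : ℂ) * I := (Complex.re_add_im _).symm
      have e2 : conj (x b) = ((x b).re : ℂ) - ((x b).im : ℂ) * I := by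
        apply Complex.ext <;> simp
      rw [e2]
      conv_lhs => rw [e1]
      linear_combination (-((chi p (a - b) : ℤ) : ℂ) * ((x a).im : ℂ) * ((x b).im : ℂ)) * I_sq
    unfold qC
    have h4 : ∀ a ∈ S, ∑ b ∈ S, ((chi p (a - b) : ℤ) : ℂ) * (x a * conj (x b)) =
        ∑ b ∈ S, ((chi p (a - b) : ℤ) : ℂ) * (((x a).re : ℂ) * conj ((x b).re : ℂ)) +
        ∑ b ∈ S, ((chi p (a - b) : ℤ) : ℂ) * (((x a).im : ℂ) * conj ((x b).im : ℂ)) +
        I * ∑ b ∈ S, (((chi p (a - b) : ℤ) : ℂ) * (((x a).im : ℂ) * ((x b).re : ℂ))) -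
        I * ∑ b ∈ S, (((chi p (a - b) : ℤ) : ℂ) * (((x a).re : ℂ) * ((x b).im : ℂ))) := by
      intro a _
      rw [Finset.mul_sum, Finset.mul_sum, ← Finset.sum_add_distrib, ← Finset.sum_add_distrib,
        ← Finset.sum_sub_distrib]
      exact Finset.sum_congr rfl fun b _ => h3 a b
    rw [Finset.sum_congr rfl h4, Finset.sum_sub_distrib, Finset.sum_add_distrib,
      Finset.sum_add_distrib, ← Finset.mul_sum, ← Finset.mul_sum, h2']
    ring
  have hsum : (∑ a ∈ S, x a) = ((∑ a ∈ S, (x a).re : ℝ) : ℂ) + ((∑ a ∈ S, (x a).im : ℝ) : ℂ) * I := by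
    push_cast
    rw [Finset.sum_mul, ← Finset.sum_add_distrib]
    exact Finset.sum_congr rfl fun a _ => (Complex.re_add_im _).symm
  have hconj : conj (∑ a ∈ S, x a) =
      ((∑ a ∈ S, (x a).re : ℝ) : ℂ) - ((∑ a ∈ S, (x a).im : ℝ) : ℂ) * I := by
    rw [hsum]
    simp [Complex.ext_iff]
  have hw : w = (w.re : ℂ) + (w.im : ℂ) * I := (Complex.re_add_im _).symm
  have hcw : conj w = (w.re : ℂ) - (w.im : ℂ) * I := by
    apply Complex.ext <;> simp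
  have hs1 : (∑ a ∈ S, ((x a).re : ℂ)) = ((∑ a ∈ S, (x a).re : ℝ) : ℂ) := by push_cast; rfl
  have hs2 : (∑ a ∈ S, ((x a).im : ℂ)) = ((∑ a ∈ S, (x a).im : ℝ) : ℂ) := by push_cast; rfl
  rw [hat0, hnsq w, Finset.sum_congr rfl fun a _ => hnsq (x a), hq, hconj, hcw, hsum] at h1
  rw [hat0, hs1, cReal, cReal, hsq, Finset.sum_congr rfl fun a _ => hsq _] at h2
  rw [hat0, hs2, cReal, cReal, hsq, Finset.sum_congr rfl fun a _ => hsq _] at h3
  apply Complex.ofReal_injective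
  rw [Complex.ofReal_add, h1, h2, h3, Finset.sum_add_distrib]
  have key : (w * (((∑ a ∈ S, (x a).re : ℝ) : ℂ) - ((∑ a ∈ S, (x a).im : ℝ) : ℂ) * I) +
      ((w.re : ℂ) - (w.im : ℂ) * I) *
        (((∑ a ∈ S, (x a).re : ℝ) : ℂ) + ((∑ a ∈ S, (x a).im : ℝ) : ℂ) * I)) =
      2 * (w.re : ℂ) * ((∑ a ∈ S, (x a).re : ℝ) : ℂ) +
        2 * (w.im : ℂ) * ((∑ a ∈ S, (x a).im : ℝ) : ℂ) := by
    conv_lhs => rw [hw]
    simp only [Complex.add_re, Complex.ofReal_re, Complex.mul_re, Complex.I_re, mul_zero,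
      Complex.ofReal_im, Complex.I_im, mul_one, sub_self, add_zero, Complex.add_im,
      Complex.mul_im, zero_add]
    linear_combination (-2 * (w.im : ℂ) * ((∑ a ∈ S, (x a).im : ℝ) : ℂ)) * I_sq
  rw [key]
  ring

end Pool.Agent.Paley62
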