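import Pool.Agent.Work.MP_9d0e17_int2.Base
import Pool.Agent.Work.MP_9d0e17_int2.Red

set_option autoImplicit false

/-!
Mass of the character sums outside a set containing the support; real character sums.
-/

namespace Pool.Agent.Paley62

open Pool.Agent.Paley67

variable {p : ℕ} [hp : Fact p.Prime]

/-- the mass outside a set `S` containing the support -/
theorem off_set (hC : Core p) (hp2 : p ≠ 2) (F : ZMod p → ℤ) (S : Finset (ZMod p))
    (hS : ∀ a, a ∉ S → F a = 0) (z : ℕ) (hz1 : 1 ≤ z)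
    (hz : 2 * z ≤ p / 2 + 3) (hpar : Even (l1 F + z)) (hN : l1 F + z ≤ p + 1)
    (hm : z ≤ S.card) (hL : (z : ℤ) ≤ l2 F) :
    ((p : ℤ) - 1) * z - ((S.card : ℤ) - 1) * (z : ℤ) ^ 2 ≤ ∑ b ∈ Sᶜ, ta F b ^ 2 := by
  classical
  have hcard : ((Sᶜ : Finset (ZMod p)).card : ℤ) = p - S.card := by
    have h := Finset.card_add_card_compl S
    rw [ZMod.card] at h
    omega
  have hsub : (Sᶜ : Finset (ZMod p)) ⊆ Finset.univ.filter (fun b => F b = 0) := by
    intro b hb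
    exact Finset.mem_filter.2 ⟨Finset.mem_univ _, hS b (Finset.mem_compl.1 hb)⟩
  by_cases h : ∃ b, (z : ℤ) ≤ |ta F b| + 1
  · have h1 := hC F z hz1 hz hpar hN h
    have h2 : ∑ b ∈ (Sᶜ : Finset (ZMod p)), ((z : ℤ) ^ 2 - ta F b ^ 2) ≤
        ∑ b ∈ Finset.univ.filter (fun b => F b = 0), max 0 ((z : ℤ) ^ 2 - ta F b ^ 2) :=
      (Finset.sum_le_sum fun b _ => le_max_right _ _).trans
        (Finset.sum_le_sum_of_subset_of_nonneg hsub fun b _ _ => le_max_left _ _)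
    rw [Finset.sum_sub_distrib, Finset.sum_const, nsmul_eq_mul, hcard] at h2
    nlinarith
  · push Not at h
    have hpars := parseval_int hp2 F
    have hsplit : ∑ b ∈ S, ta F b ^ 2 + ∑ b ∈ Sᶜ, ta F b ^ 2 = ∑ b, ta F b ^ 2 :=
      Finset.sum_add_sum_compl S _
    have h2z : (2 : ℤ) ≤ z := by
      have := h 0
      have h0 := abs_nonneg (ta F 0)
      omega
    have h3 : ∑ b ∈ S, ta F b ^ 2 ≤ S.card * ((z : ℤ) - 2) ^ 2 := by
      have : ∑ b ∈ S, ta F b ^ 2 ≤ ∑ b ∈ S, ((z : ℤ) - 2) ^ 2 := by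
        refine Finset.sum_le_sum fun b _ => ?_
        rw [← sq_abs]
        have h5 : |ta F b| ≤ (z : ℤ) - 2 := by
          have := h b
          omega
        exact pow_le_pow_left₀ (abs_nonneg _) h5 2
      simpa using this
    have h4 := sum_sq_le F
    have h5 : ((sup F).card : ℤ) ≤ S.card := by
      have : sup F ⊆ S := by
        intro a ha
        by_contra hcon
        exact (Finset.mem_filter.1 ha).2 (hS a hcon)
      exact_mod_cast Finset.card_le_card this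
    have hL0 : 0 ≤ l2 F := Finset.sum_nonneg fun a _ => sq_nonneg _
    have h4' : (∑ a, F a) ^ 2 ≤ S.card * l2 F := h4.trans (mul_le_mul_of_nonneg_right h5 hL0)
    have h6 : (S.card : ℤ) ≤ p := by
      have : S.card ≤ p := by
        have := Finset.card_le_univ S
        rwa [ZMod.card] at this
      exact_mod_cast this
    have h7 : (z : ℤ) ≤ S.card := by exact_mod_cast hm
    set m : ℤ := (S.card : ℤ)
    set Z : ℤ := (z : ℤ)
    set L := l2 F
    have h8 : 0 ≤ ((p : ℤ) - m) * (L - Z) := mul_nonneg (by linarith) (by linarith)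
    have h9 : 0 ≤ Z * (m - Z) := mul_nonneg (by linarith) (by linarith)
    have h10 : 0 ≤ (2 * m + 1) * (Z - 2) := mul_nonneg (by linarith) (by linarith)
    nlinarith

/-- real character sums -/
noncomputable def tr (v : ZMod p → ℝ) (b : ZMod p) : ℝ := ∑ a, v a * ((chi p (b - a) : ℤ) : ℝ)

theorem parseval_real (hp2 : p ≠ 2) (v : ZMod p → ℝ) :
    ∑ b, tr v b ^ 2 = p * ∑ a, v a ^ 2 - (∑ a, v a) ^ 2 := by
  classical
  have h1 : ∀ b, tr v b ^ 2 = ∑ a, ∑ a', v a * v a' *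
      (((chi p (b - a) : ℤ) : ℝ) * ((chi p (b - a') : ℤ) : ℝ)) := by
    intro b
    unfold tr
    rw [sq, Finset.sum_mul_sum]
    refine Finset.sum_congr rfl fun a _ => Finset.sum_congr rfl fun a' _ => ?_
    ring
  rw [Finset.sum_congr rfl fun b _ => h1 b, Finset.sum_comm]
  have hpair : ∀ a a' : ZMod p, ∑ b, ((chi p (b - a) : ℤ) : ℝ) * ((chi p (b - a') : ℤ) : ℝ) =
      (if a = a' then (p : ℝ) else 0) - 1 := by
    intro a a'
    have := sum_chi_pair hp2 a a'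
    have h := congrArg (fun n : ℤ => (n : ℝ)) this
    push_cast at h
    exact h
  have h2 : ∀ a : ZMod p, ∑ b, ∑ a', v a * v a' *
      (((chi p (b - a) : ℤ) : ℝ) * ((chi p (b - a') : ℤ) : ℝ)) =
      p * v a ^ 2 - v a * ∑ a', v a' := by
    intro a
    rw [Finset.sum_comm]
    have h3 : ∀ a' : ZMod p, ∑ b, v a * v a' *
        (((chi p (b - a) : ℤ) : ℝ) * ((chi p (b - a') : ℤ) : ℝ)) =
        (if a = a' then p * (v a * v a') else 0) - v a * v a' := by
      intro a'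
      rw [← Finset.mul_sum, hpair]
      split_ifs with h <;> ring
    rw [Finset.sum_congr rfl fun a' _ => h3 a', Finset.sum_sub_distrib, Finset.sum_ite_eq,
      if_pos (Finset.mem_univ _), ← Finset.mul_sum]
    ring
  rw [Finset.sum_congr rfl fun a _ => h2 a, Finset.sum_sub_distrib, ← Finset.mul_sum,
    ← Finset.sum_mul]
  ring

theorem parseval_le (hp2 : p ≠ 2) (v : ZMod p → ℝ) (S : Finset (ZMod p)) :
    ∑ b ∈ S, tr v b ^ 2 ≤ p * ∑ a, v a ^ 2 := by
  have h := parseval_real hp2 v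
  have h1 : ∑ b ∈ S, tr v b ^ 2 ≤ ∑ b, tr v b ^ 2 :=
    Finset.sum_le_univ_sum_of_nonneg fun b => sq_nonneg _
  nlinarith [sq_nonneg (∑ a, v a)]

theorem chi_sq_le (b : ZMod p) : ((chi p b : ℤ) : ℝ) ^ 2 ≤ 1 := by
  by_cases h : b = 0
  · rw [h]
    have : chi p 0 = 0 := quadraticChar_zero
    rw [this]; norm_num
  · have : chi p b = 1 ∨ chi p b = -1 := quadraticChar_dichotomy h
    rcases this with h | h <;> rw [h] <;> norm_num

theorem tr_eq_sum (S : Finset (ZMod p)) (v : ZMod p → ℝ) (hv : ∀ a, a ∉ S → v a = 0)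
    (b : ZMod p) : tr v b = ∑ a ∈ S, v a * ((chi p (b - a) : ℤ) : ℝ) := by
  unfold tr
  rw [← Finset.sum_subset (Finset.subset_univ S)]
  intro a _ ha
  rw [hv a ha, zero_mul]

theorem tr_sq_le (S : Finset (ZMod p)) (v : ZMod p → ℝ) (hv : ∀ a, a ∉ S → v a = 0)
    (b : ZMod p) : tr v b ^ 2 ≤ S.card * ∑ a ∈ S, v a ^ 2 := by
  rw [tr_eq_sum S v hv]
  refine (Finset.sum_mul_sq_le_sq_mul_sq S v _).trans ?_
  rw [mul_comm]
  apply mul_le_mul_of_nonneg_right _ (Finset.sum_nonneg fun a _ => sq_nonneg _)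
  refine (Finset.sum_le_sum fun a _ => chi_sq_le _).trans ?_
  simp

theorem qR_eq (S : Finset (ZMod p)) (v : ZMod p → ℝ) (hv : ∀ a, a ∉ S → v a = 0) :
    qR S v = ∑ b ∈ S, v b * tr v b := by
  unfold qR
  refine Finset.sum_congr rfl fun b _ => ?_
  rw [tr_eq_sum S v hv, Finset.mul_sum]
  refine Finset.sum_congr rfl fun a _ => ?_
  ring

theorem sum_univ_eq (S : Finset (ZMod p)) (v : ZMod p → ℝ) (hv : ∀ a, a ∉ S → v a = 0) :
    ∑ a, v a ^ 2 = ∑ a ∈ S, v a ^ 2 := by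
  rw [← Finset.sum_subset (Finset.subset_univ S)]
  intro a _ ha
  rw [hv a ha]; norm_num

/-- the defect controls the distance from an exact eigenvector -/
theorem defect (hp2 : p ≠ 2) (S : Finset (ZMod p)) (v : ZMod p → ℝ) (hv : ∀ a, a ∉ S → v a = 0) :
    ∃ σ : ℝ, σ * σ = 1 ∧
      ∑ b ∈ S, (tr v b - σ * Real.sqrt p * v b) ^ 2 + ∑ b ∈ Sᶜ, tr v b ^ 2 ≤
        2 * p * (∑ a ∈ S, v a ^ 2 - |qR S v| / Real.sqrt p) := by
  set r := Real.sqrt p with hr
  have hr0 : 0 < r := Real.sqrt_pos.2 (by exact_mod_cast hp.out.pos)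
  have hrr : r * r = p := Real.mul_self_sqrt (Nat.cast_nonneg _)
  obtain ⟨σ, hσ, hσq⟩ : ∃ σ : ℝ, σ * σ = 1 ∧ σ * qR S v = |qR S v| := by
    rcases abs_cases (qR S v) with h | h
    · exact ⟨1, by norm_num, by rw [h.1, one_mul]⟩
    · exact ⟨-1, by norm_num, by rw [h.1]; ring⟩
  refine ⟨σ, hσ, ?_⟩
  have hpars := parseval_real hp2 v
  have hsplit : ∑ b ∈ S, tr v b ^ 2 + ∑ b ∈ Sᶜ, tr v b ^ 2 = ∑ b, tr v b ^ 2 :=
    Finset.sum_add_sum_compl S _
  have h6 : ∑ b ∈ S, (tr v b - σ * r * v b) ^ 2 =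
      ∑ b ∈ S, tr v b ^ 2 - 2 * σ * r * ∑ b ∈ S, v b * tr v b +
        σ * σ * (r * r) * ∑ b ∈ S, v b ^ 2 := by
    rw [Finset.mul_sum, Finset.mul_sum, ← Finset.sum_sub_distrib, ← Finset.sum_add_distrib]
    refine Finset.sum_congr rfl fun b _ => ?_
    ring
  rw [h6, ← qR_eq S v hv, hσ, hrr]
  rw [sum_univ_eq S v hv] at hpars
  have h7 : 2 * p * (∑ a ∈ S, v a ^ 2 - |qR S v| / r) =
      2 * p * ∑ a ∈ S, v a ^ 2 - 2 * r * |qR S v| := by
    have : 2 * (p : ℝ) * (|qR S v| / r) = 2 * r * |qR S v| := by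
      rw [← hrr]; field_simp
    rw [mul_sub, this]
  rw [h7, ← hσq]
  nlinarith [sq_nonneg (∑ a, v a)]

theorem gersh_real (S : Finset (ZMod p)) (v : ZMod p → ℝ) :
    |qR S v| ≤ ((S.card : ℝ) - 1) * ∑ a ∈ S, v a ^ 2 := by
  classical
  have h2 : |qR S v| ≤ (∑ b ∈ S, |v b|) ^ 2 - ∑ b ∈ S, |v b| ^ 2 := by
    have h3 : (∑ b ∈ S, |v b|) ^ 2 - ∑ b ∈ S, |v b| ^ 2 =
        ∑ b ∈ S, (∑ a ∈ S, |v b| * |v a| - |v b| ^ 2) := by
      rw [Finset.sum_sub_distrib, sq, Finset.sum_mul_sum]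
    rw [h3]
    unfold qR
    refine (Finset.abs_sum_le_sum_abs _ _).trans (Finset.sum_le_sum fun b hb => ?_)
    rw [← Finset.add_sum_erase _ _ hb, ← Finset.add_sum_erase _ (fun a => |v b| * |v a|) hb]
    have h0 : chi p (b - b) = 0 := by rw [sub_self]; exact quadraticChar_zero
    rw [h0, Int.cast_zero, mul_zero, zero_add]
    have h4 : |v b| * |v b| + ∑ a ∈ S.erase b, |v b| * |v a| - |v b| ^ 2 =
        ∑ a ∈ S.erase b, |v b| * |v a| := by ring
    rw [h4]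
    refine (Finset.abs_sum_le_sum_abs _ _).trans (Finset.sum_le_sum fun a ha => ?_)
    have h5 : chi p (b - a) = 1 ∨ chi p (b - a) = -1 :=
      quadraticChar_dichotomy (sub_ne_zero.2 (Finset.mem_erase.1 ha).1.symm)
    rw [abs_mul, abs_mul]
    have h6 : |((chi p (b - a) : ℤ) : ℝ)| = 1 := by
      rcases h5 with h | h <;> rw [h] <;> norm_num
    rw [h6, mul_one]
  have h3 : (∑ b ∈ S, |v b|) ^ 2 ≤ S.card * ∑ b ∈ S, |v b| ^ 2 := sq_sum_le_card_mul_sum_sq
  have h4 : ∑ b ∈ S, |v b| ^ 2 = ∑ b ∈ S, v b ^ 2 :=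
    Finset.sum_congr rfl fun b _ => sq_abs _
  rw [h4] at h2 h3
  linarith

end Pool.Agent.Paley62
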